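import Pool.Agent.H497.TV.Avail

set_option autoImplicit false



namespace Pool.Agent.H497.TV

/- available (proved elsewhere), leave these sorrys -/

/- to be proved -/

theorem RR_low {q N j0 : ℕ} {W y : ℂ} (h : 2 * j0 ≤ N) {j : ℕ} (hj : j < j0) : RR q N W j0 y j = 0 := by
  unfold RR
  rw [if_neg (by omega), if_neg (by omega), add_zero]

theorem RR_high {q N j0 : ℕ} {W y : ℂ} (h : 2 * j0 ≤ N) {j : ℕ} (hj : N < j) : RR q N W j0 y j = 0 := by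
  unfold RR
  rw [if_neg (by omega), if_neg (by omega), add_zero]

theorem RR_top {q N j0 : ℕ} {W y : ℂ} (h : 2 * j0 ≤ N) (h0 : 1 ≤ j0) : RR q N W j0 y N = 0 := by
  unfold RR
  rw [if_neg (by omega), if_neg (by omega), add_zero]

/-- the second `if` is `j = N - j0` -/
theorem RR_eval {q N j0 : ℕ} {W y : ℂ} (h : 2 * j0 ≤ N) (u : ℂ) :
    ∑ j ∈ Finset.range (N + 1), RR q N W j0 y j * u ^ j =
      y * u ^ j0 + W * starRingEnd ℂ y * ((√(q : ℝ) ^ N / (q : ℝ) ^ j0 : ℝ) : ℂ) * u ^ (N - j0) := by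
  have h1 : ∀ j ∈ Finset.range (N + 1), RR q N W j0 y j * u ^ j =
      (if j = j0 then y * u ^ j else 0) + (if j = N - j0 then
        W * starRingEnd ℂ y * ((√(q : ℝ) ^ N / (q : ℝ) ^ j0 : ℝ) : ℂ) * u ^ j else 0) := by
    intro j _
    unfold RR
    rw [add_mul, ite_mul, ite_mul, zero_mul]
    have h2 : (j + j0 = N) = (j = N - j0) := by
      rw [eq_iff_iff]
      omega
    simp only [h2]
  rw [Finset.sum_congr rfl h1, Finset.sum_add_distrib, Finset.sum_ite_eq', Finset.sum_ite_eq',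
    if_pos (Finset.mem_range.2 (by omega)), if_pos (Finset.mem_range.2 (by omega))]

theorem WW {W : ℂ} (hW : ‖W‖ = 1) : W * starRingEnd ℂ W = 1 := by
  rw [Complex.mul_conj, Complex.normSq_eq_norm_sq, hW]
  norm_num

/-- functional equation of the two additional terms: by `RR_eval`, `conj ((1/(q conj u))^j) = (1/(q u))^j` and
`√q ^ 2 = q`, `W conj W = 1` -/
theorem RR_FE {q N j0 : ℕ} (hq : 2 ≤ q) {W y : ℂ} (hW : ‖W‖ = 1) (h : 2 * j0 ≤ N) (u : ℂ) (hu : u ≠ 0) :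
    ∑ j ∈ Finset.range (N + 1), RR q N W j0 y j * u ^ j =
      W * ((√(q : ℝ) : ℝ) * u) ^ N *
        starRingEnd ℂ (∑ j ∈ Finset.range (N + 1), RR q N W j0 y j * (1 / (q * starRingEnd ℂ u)) ^ j) := by
  have hq0 : (0 : ℝ) < (q : ℝ) := by exact_mod_cast (by omega : 0 < q)
  have hs0 : (0 : ℝ) < √(q : ℝ) := Real.sqrt_pos.2 hq0
  obtain ⟨s, hs⟩ : ∃ s : ℂ, s = ((√(q : ℝ) : ℝ) : ℂ) := ⟨_, rfl⟩
  have hsne : s ≠ 0 := by
    rw [hs]
    exact_mod_cast hs0.ne'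
  have hqs : (q : ℂ) = s ^ 2 := by
    rw [hs, ← Complex.ofReal_pow, Real.sq_sqrt hq0.le]
    norm_num
  have hc : ((√(q : ℝ) ^ N / (q : ℝ) ^ j0 : ℝ) : ℂ) = s ^ N / (s ^ 2) ^ j0 := by
    rw [Complex.ofReal_div, Complex.ofReal_pow, Complex.ofReal_pow, Complex.ofReal_natCast, ← hs, hqs]
  have hsc : starRingEnd ℂ s = s := by
    rw [hs, Complex.conj_ofReal]
  rw [RR_eval h, RR_eval h, hc, ← hs, hqs]
  simp only [map_add, map_mul, map_pow, map_div₀, map_one, Complex.conj_conj, hsc]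
  obtain ⟨k, rfl⟩ : ∃ k, N = 2 * j0 + k := ⟨N - 2 * j0, by omega⟩
  have e1 : 2 * j0 + k - j0 = j0 + k := by omega
  rw [e1]
  have hWW := WW hW
  have e2 : W * (s * u) ^ (2 * j0 + k) * (starRingEnd ℂ y * (1 / (s ^ 2 * u)) ^ j0 +
      starRingEnd ℂ W * y * (s ^ (2 * j0 + k) / (s ^ 2) ^ j0) * (1 / (s ^ 2 * u)) ^ (j0 + k)) =
      W * starRingEnd ℂ y * (s ^ (2 * j0 + k) / (s ^ 2) ^ j0) * u ^ (j0 + k) +
      (W * starRingEnd ℂ W) * (y * u ^ j0) := by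
    have hsj : (s ^ 2) ^ j0 ≠ 0 := pow_ne_zero _ (pow_ne_zero _ hsne)
    rw [one_div, inv_pow, inv_pow]
    field_simp
    ring
  rw [e2, hWW]
  ring

/-- at most two terms, `‖y‖ r^j0` and `‖y‖ √q^N / q^j0 r^(N-j0)`; the second is `≤ ‖y‖ r^j0` by `FF_qr_identity`
(`-η N + 2 η j0 ≤ 0`) -/
theorem RR_norm {q N j0 : ℕ} (hq : 2 ≤ q) {W y : ℂ} (hW : ‖W‖ = 1) (h : 2 * j0 ≤ N) {η r : ℝ} (hη : 0 < η)
    (hr : r = (q : ℝ) ^ (-(1 / 2 + η))) (K : ℕ) :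
    ∑ j ∈ Finset.range K, ‖RR q N W j0 y j‖ * r ^ j ≤ 2 * ‖y‖ * r ^ j0 := by
  have hq0 : (0 : ℝ) < (q : ℝ) := by exact_mod_cast (by omega : 0 < q)
  have hq1 : (1 : ℝ) ≤ (q : ℝ) := by exact_mod_cast (by omega : 1 ≤ q)
  have hr0 : 0 < r := by
    rw [hr]
    exact Real.rpow_pos_of_pos hq0 _
  have hc0 : (0 : ℝ) ≤ √(q : ℝ) ^ N / (q : ℝ) ^ j0 := by positivity
  have h1 : ∀ j ∈ Finset.range K, ‖RR q N W j0 y j‖ * r ^ j ≤
      (if j = j0 then ‖y‖ * r ^ j else 0) + (if j = N - j0 then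
        ‖y‖ * (√(q : ℝ) ^ N / (q : ℝ) ^ j0) * r ^ j else 0) := by
    intro j _
    have h2 : (j + j0 = N) = (j = N - j0) := by
      rw [eq_iff_iff]
      omega
    have h3 : ‖RR q N W j0 y j‖ ≤ (if j = j0 then ‖y‖ else 0) + (if j = N - j0 then
        ‖y‖ * (√(q : ℝ) ^ N / (q : ℝ) ^ j0) else 0) := by
      unfold RR
      refine (norm_add_le _ _).trans (add_le_add ?_ ?_)
      · split_ifs
        · exact le_rfl
        · rw [norm_zero]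
      · simp only [h2]
        split_ifs
        · rw [norm_mul, norm_mul, hW, one_mul, RCLike.norm_conj, Complex.norm_real, Real.norm_of_nonneg hc0]
        · rw [norm_zero]
    refine (mul_le_mul_of_nonneg_right h3 (pow_nonneg hr0.le j)).trans_eq ?_
    rw [add_mul, ite_mul, ite_mul, zero_mul]
  refine (Finset.sum_le_sum h1).trans ?_
  rw [Finset.sum_add_distrib, Finset.sum_ite_eq', Finset.sum_ite_eq']
  have h4 : ‖y‖ * (√(q : ℝ) ^ N / (q : ℝ) ^ j0) * r ^ (N - j0) ≤ ‖y‖ * r ^ j0 := by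
    have h5 := FF_qr_identity (q : ℝ) hq0 η N j0 (by omega)
    rw [← hr] at h5
    rw [mul_assoc, h5]
    refine mul_le_mul_of_nonneg_left ?_ (norm_nonneg _)
    have h6 : (q : ℝ) ^ (-η * (N : ℝ) + 2 * η * (j0 : ℝ)) ≤ 1 := by
      apply Real.rpow_le_one_of_one_le_of_nonpos hq1
      have h7 : (2 : ℝ) * (j0 : ℝ) ≤ (N : ℝ) := by exact_mod_cast h
      nlinarith
    calc r ^ j0 * (q : ℝ) ^ (-η * (N : ℝ) + 2 * η * (j0 : ℝ)) ≤ r ^ j0 * 1 :=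
          mul_le_mul_of_nonneg_left h6 (pow_nonneg hr0.le _)
      _ = r ^ j0 := mul_one _
  have h8 : 0 ≤ ‖y‖ * r ^ j0 := mul_nonneg (norm_nonneg _) (pow_nonneg hr0.le _)
  have h9 : (if j0 ∈ Finset.range K then ‖y‖ * r ^ j0 else 0) ≤ ‖y‖ * r ^ j0 := by
    split_ifs
    · exact le_rfl
    · exact h8
  have h10 : (if N - j0 ∈ Finset.range K then ‖y‖ * (√(q : ℝ) ^ N / (q : ℝ) ^ j0) * r ^ (N - j0) else 0) ≤
      ‖y‖ * r ^ j0 := by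
    split_ifs
    · exact h4
    · exact h8
  calc _ ≤ ‖y‖ * r ^ j0 + ‖y‖ * r ^ j0 := add_le_add h9 h10
    _ = 2 * ‖y‖ * r ^ j0 := by ring

/-- `FF_LL_sum` at `u = 1/√q` (then `1/(q conj u) = u`, `√q u = 1`): `LLc = A + W conj A` with
`A = ∑_{j<k0} expc g j u^j` -/
theorem LLc_eq {q : ℕ} (hq : 2 ≤ q) (g : ℕ → ℂ) {k0 N : ℕ} (W : ℂ) (hN : 2 * k0 ≤ N) :
    LLc q g k0 N W = ∑ j ∈ Finset.range k0, FF.expc g j * ((1 / √(q : ℝ) : ℝ) : ℂ) ^ j +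
      W * starRingEnd ℂ (∑ j ∈ Finset.range k0, FF.expc g j * ((1 / √(q : ℝ) : ℝ) : ℂ) ^ j) := by
  have hq0 : (0 : ℝ) < (q : ℝ) := by exact_mod_cast (by omega : 0 < q)
  have hs0 : (0 : ℝ) < √(q : ℝ) := Real.sqrt_pos.2 hq0
  have hu : ((1 / √(q : ℝ) : ℝ) : ℂ) ≠ 0 := by
    exact_mod_cast (one_div_pos.2 hs0).ne'
  unfold LLc
  rw [FF_LL_sum q hq g k0 N W hN _ hu]
  have e1 : (1 / ((q : ℂ) * starRingEnd ℂ ((1 / √(q : ℝ) : ℝ) : ℂ))) = ((1 / √(q : ℝ) : ℝ) : ℂ) := by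
    rw [Complex.conj_ofReal]
    have e2 : (1 : ℝ) / ((q : ℝ) * (1 / √(q : ℝ))) = 1 / √(q : ℝ) := by
      have e3 : (q : ℝ) = √(q : ℝ) * √(q : ℝ) := (Real.mul_self_sqrt hq0.le).symm
      have e4 : (q : ℝ) * (1 / √(q : ℝ)) = √(q : ℝ) := by
        nth_rewrite 1 [e3]
        field_simp
      rw [e4]
    exact_mod_cast congrArg (fun t : ℝ => (t : ℂ)) e2
  have e5 : (((√(q : ℝ) : ℝ) : ℂ) * ((1 / √(q : ℝ) : ℝ) : ℂ)) ^ N = 1 := by
    rw [← Complex.ofReal_mul, mul_one_div_cancel hs0.ne', Complex.ofReal_one, one_pow]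
  rw [e1, e5, mul_one]

theorem LLc_self {q : ℕ} (hq : 2 ≤ q) (g : ℕ → ℂ) {k0 N : ℕ} {W : ℂ} (hW : ‖W‖ = 1) (hN : 2 * k0 ≤ N) :
    W * starRingEnd ℂ (LLc q g k0 N W) = LLc q g k0 N W := by
  rw [LLc_eq hq g W hN, map_add, map_mul, Complex.conj_conj]
  have h := WW hW
  linear_combination (∑ j ∈ Finset.range k0, FF.expc g j * ((1 / √(q : ℝ) : ℝ) : ℂ) ^ j) * h

/-- by `LLc_eq`, `FF_expc_bound` and `(1/√q)^j = r1^j (q^η)^j ≤ r1^j (q^η)^k0` for `j < k0`, as `r1 √q = q^(-η)` -/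
theorem LLc_bound {q : ℕ} (hq : 2 ≤ q) (g : ℕ → ℂ) {k0 N : ℕ} {W : ℂ} (hW : ‖W‖ = 1) (hN : 2 * k0 ≤ N)
    {η r1 B : ℝ} (hη : 0 < η) (hr1 : r1 = (q : ℝ) ^ (-(1 / 2 + η)))
    (hB : ∑ j ∈ Finset.Ico 1 k0, ‖g j‖ / j * r1 ^ j ≤ B) :
    ‖LLc q g k0 N W‖ ≤ 2 * (Real.exp B * (q : ℝ) ^ (η * k0)) := by
  have hq0 : (0 : ℝ) < (q : ℝ) := by exact_mod_cast (by omega : 0 < q)
  have hq1 : (1 : ℝ) ≤ (q : ℝ) := by exact_mod_cast (by omega : 1 ≤ q)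
  have hs0 : (0 : ℝ) < √(q : ℝ) := Real.sqrt_pos.2 hq0
  have hr0 : 0 < r1 := by
    rw [hr1]
    exact Real.rpow_pos_of_pos hq0 _
  have hexp := FF_expc_bound g k0 r1 B hr0.le hB
  have hx : 1 / √(q : ℝ) = r1 * (q : ℝ) ^ η := by
    rw [hr1, ← Real.rpow_add hq0, Real.sqrt_eq_rpow, one_div, ← Real.rpow_neg hq0.le]
    congr 1
    ring
  have hA : ‖∑ j ∈ Finset.range k0, FF.expc g j * ((1 / √(q : ℝ) : ℝ) : ℂ) ^ j‖ ≤
      Real.exp B * (q : ℝ) ^ (η * k0) := by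
    refine (norm_sum_le _ _).trans ?_
    have h1 : ∀ j ∈ Finset.range k0, ‖FF.expc g j * ((1 / √(q : ℝ) : ℝ) : ℂ) ^ j‖ ≤
        (‖FF.expc g j‖ * r1 ^ j) * (q : ℝ) ^ (η * k0) := by
      intro j hj
      have hjk := Finset.mem_range.1 hj
      rw [norm_mul, norm_pow, Complex.norm_real, Real.norm_of_nonneg (one_div_pos.2 hs0).le, hx, mul_pow,
        mul_assoc]
      refine mul_le_mul_of_nonneg_left ?_ (norm_nonneg _)
      refine mul_le_mul_of_nonneg_left ?_ (pow_nonneg hr0.le _)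
      rw [← Real.rpow_natCast, ← Real.rpow_mul hq0.le]
      apply Real.rpow_le_rpow_of_exponent_le hq1
      refine mul_le_mul_of_nonneg_left ?_ hη.le
      exact_mod_cast hjk.le
    refine (Finset.sum_le_sum h1).trans ?_
    rw [← Finset.sum_mul]
    exact mul_le_mul_of_nonneg_right hexp (Real.rpow_nonneg hq0.le _)
  rw [LLc_eq hq g W hN]
  refine (norm_add_le _ _).trans ?_
  rw [norm_mul, hW, one_mul, RCLike.norm_conj]
  linarith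

end Pool.Agent.H497.TV
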