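import Pool.Agent.H497.TV.Alg1

set_option autoImplicit false



namespace Pool.Agent.H497.TV

/- available (proved elsewhere), leave these sorrys -/

/- available (proved elsewhere), leave these sorrys -/

/- to be proved -/

theorem VV_zero {q : ℕ} {g : ℕ → ℂ} {k0 N j0 : ℕ} {W v : ℂ} (hk0 : 1 ≤ k0) (h1 : k0 ≤ j0) (h2 : 2 * j0 ≤ N) :
    VV q g k0 N W v j0 0 = 1 := by
  unfold VV
  rw [FF_LL_zero q g k0 N W hk0 (by omega), RR_low h2 (by omega), add_zero]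

theorem VV_supp {q : ℕ} {g : ℕ → ℂ} {k0 N j0 : ℕ} {W v : ℂ} (h1 : k0 ≤ j0) (h2 : 2 * j0 ≤ N) {j : ℕ} (hj : N < j) :
    VV q g k0 N W v j0 j = 0 := by
  unfold VV
  rw [FF_LL_supp q g k0 N W (by omega) j hj, RR_high h2 hj, add_zero]

/-- `LL` at `N`: the first `if` fails, in the second `N - N = 0 < k0`, `expc g 0 = 1` -/
theorem VV_top {q : ℕ} {g : ℕ → ℂ} {k0 N j0 : ℕ} {W v : ℂ} (hk0 : 1 ≤ k0) (h1 : k0 ≤ j0) (h2 : 2 * j0 ≤ N) :
    VV q g k0 N W v j0 N = W * ((√(q : ℝ) ^ N : ℝ) : ℂ) := by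
  unfold VV
  rw [RR_top h2 (by omega), add_zero]
  unfold FF.LL
  rw [if_neg (by omega), if_pos ⟨le_refl N, by omega⟩, Nat.sub_self, FF.expc_zero, map_one,
    pow_zero, div_one, mul_one, zero_add]

/-- `FF_LL_FE` and `RR_FE` -/
theorem VV_FE {q : ℕ} (hq : 2 ≤ q) {g : ℕ → ℂ} {k0 N j0 : ℕ} {W v : ℂ} (hW : ‖W‖ = 1) (h1 : k0 ≤ j0)
    (h2 : 2 * j0 ≤ N) (u : ℂ) (hu : u ≠ 0) :
    ∑ j ∈ Finset.range (N + 1), VV q g k0 N W v j0 j * u ^ j =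
      W * ((√(q : ℝ) : ℝ) * u) ^ N *
        starRingEnd ℂ (∑ j ∈ Finset.range (N + 1), VV q g k0 N W v j0 j * (1 / (q * starRingEnd ℂ u)) ^ j) := by
  unfold VV
  simp only [add_mul, Finset.sum_add_distrib, map_add, mul_add]
  rw [← FF_LL_FE q hq g k0 N W hW (by omega) u hu, ← RR_FE hq hW h2 u hu]

/-- `RR_eval` at `u = 1/√q` with `y = √q^j0 w`, `w = (v - LLc)/2`: the two terms are `w` and
`W conj w √q^j0 √q^N / q^j0 √q^(-(N-j0)) = W conj w`; `w + W conj w = v - LLc` by `hv` and `LLc_self` -/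
theorem VV_value {q : ℕ} (hq : 2 ≤ q) {g : ℕ → ℂ} {k0 N j0 : ℕ} {W v : ℂ} (hW : ‖W‖ = 1) (h1 : k0 ≤ j0)
    (h2 : 2 * j0 ≤ N) (hv : W * starRingEnd ℂ v = v) :
    ∑ j ∈ Finset.range (N + 1), VV q g k0 N W v j0 j * ((1 / √(q : ℝ) : ℝ) : ℂ) ^ j = v := by
  have hL := LLc_self hq g (k0 := k0) (N := N) hW (by omega)
  unfold VV
  simp only [add_mul, Finset.sum_add_distrib]
  rw [RR_eval h2]
  have e0 : ∑ j ∈ Finset.range (N + 1), FF.LL q g k0 N W j * ((1 / √(q : ℝ) : ℝ) : ℂ) ^ j =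
      LLc q g k0 N W := rfl
  rw [e0]
  have hq0 : (0 : ℝ) < q := by
    have : 0 < q := by omega
    exact_mod_cast this
  have hs : (0 : ℝ) < √(q : ℝ) := Real.sqrt_pos.mpr hq0
  have hsC : ((√(q : ℝ) : ℝ) : ℂ) ≠ 0 := by
    exact_mod_cast hs.ne'
  have hsq : (q : ℝ) = √(q : ℝ) * √(q : ℝ) := (Real.mul_self_sqrt hq0.le).symm
  obtain ⟨m, hm⟩ : ∃ m, N = m + j0 := ⟨N - j0, by omega⟩
  have e1 : N - j0 = m := by omega
  have e2 : ((√(q : ℝ) ^ j0 : ℝ) : ℂ) * ((1 / √(q : ℝ) : ℝ) : ℂ) ^ j0 = 1 := by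
    rw [← Complex.ofReal_pow, ← Complex.ofReal_mul, ← mul_pow, mul_one_div_cancel hs.ne', one_pow,
      Complex.ofReal_one]
  have e3 : ((√(q : ℝ) ^ j0 : ℝ) : ℂ) * ((√(q : ℝ) ^ N / (q : ℝ) ^ j0 : ℝ) : ℂ) *
      ((1 / √(q : ℝ) : ℝ) : ℂ) ^ m = 1 := by
    rw [← Complex.ofReal_pow, ← Complex.ofReal_mul, ← Complex.ofReal_mul, ← Complex.ofReal_one]
    congr 1
    have h5 : (q : ℝ) ^ j0 = √(q : ℝ) ^ j0 * √(q : ℝ) ^ j0 := by
      rw [← mul_pow, ← hsq]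
    have h6 : √(q : ℝ) ^ j0 ≠ 0 := pow_ne_zero _ hs.ne'
    have h7 : √(q : ℝ) ^ m ≠ 0 := pow_ne_zero _ hs.ne'
    rw [h5, hm, pow_add, div_pow, one_pow]
    field_simp
  rw [e1]
  set w : ℂ := (v - LLc q g k0 N W) / 2 with hw
  have e4 : ((√(q : ℝ) ^ j0 : ℝ) : ℂ) * w * ((1 / √(q : ℝ) : ℝ) : ℂ) ^ j0 = w := by
    calc ((√(q : ℝ) ^ j0 : ℝ) : ℂ) * w * ((1 / √(q : ℝ) : ℝ) : ℂ) ^ j0
        = w * (((√(q : ℝ) ^ j0 : ℝ) : ℂ) * ((1 / √(q : ℝ) : ℝ) : ℂ) ^ j0) := by ring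
      _ = w := by rw [e2, mul_one]
  have e5 : W * starRingEnd ℂ (((√(q : ℝ) ^ j0 : ℝ) : ℂ) * w) *
      ((√(q : ℝ) ^ N / (q : ℝ) ^ j0 : ℝ) : ℂ) * ((1 / √(q : ℝ) : ℝ) : ℂ) ^ m =
      W * starRingEnd ℂ w := by
    rw [map_mul, Complex.conj_ofReal]
    calc W * (((√(q : ℝ) ^ j0 : ℝ) : ℂ) * starRingEnd ℂ w) *
          ((√(q : ℝ) ^ N / (q : ℝ) ^ j0 : ℝ) : ℂ) * ((1 / √(q : ℝ) : ℝ) : ℂ) ^ m
        = W * starRingEnd ℂ w * (((√(q : ℝ) ^ j0 : ℝ) : ℂ) *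
          ((√(q : ℝ) ^ N / (q : ℝ) ^ j0 : ℝ) : ℂ) * ((1 / √(q : ℝ) : ℝ) : ℂ) ^ m) := by ring
      _ = W * starRingEnd ℂ w := by rw [e3, mul_one]
  rw [e4, e5]
  have e6 : W * starRingEnd ℂ w = w := by
    rw [hw, map_div₀, map_sub]
    have h2' : starRingEnd ℂ (2 : ℂ) = 2 := by
      exact Complex.conj_ofNat 2
    rw [h2', mul_div_assoc', mul_sub, hv, hL]
  rw [e6, hw]
  ring

theorem ldc_congr {a b : ℕ → ℂ} {k : ℕ} (h : ∀ j ≤ k, a j = b j) : FF.ldc a k = FF.ldc b k := by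
  induction k using Nat.strong_induction_on with
  | _ k ih =>
    cases k with
    | zero =>
      rw [FF.ldc, FF.ldc]
    | succ k =>
      rw [FF.ldc, FF.ldc, h (k + 1) le_rfl]
      congr 1
      refine Finset.sum_congr rfl fun j _ => ?_
      have hj := j.2
      rw [ih (j + 1) (by omega) (fun i hi => h i (by omega)), h (k - j) (by omega)]

/-- `ldc_congr` and `FF_ldc_low` -/
theorem VV_ldc_low {q : ℕ} {g : ℕ → ℂ} {k0 N j0 : ℕ} {W v : ℂ} (h1 : k0 ≤ j0) (h2 : 2 * j0 ≤ N) {k : ℕ}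
    (hk1 : 1 ≤ k) (hk : k < k0) : FF.ldc (VV q g k0 N W v j0) k = g k := by
  rw [← FF_ldc_low q g k0 N W (by omega) k hk1 hk]
  refine ldc_congr fun j hj => ?_
  unfold VV
  rw [RR_low h2 (by omega), add_zero]

theorem VV_congr {q : ℕ} {g g' : ℕ → ℂ} {k0 N j0 : ℕ} {W v : ℂ} (h : ∀ j, 1 ≤ j → j < k0 → g j = g' j) :
    VV q g k0 N W v j0 = VV q g' k0 N W v j0 := by
  have h1 := FF_LL_congr q g g' k0 N W h
  funext j
  unfold VV LLc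
  rw [h1]

/-- `LL` for `conj g`, `conj W` is `conj LL` (unfold `LL`, `FF_expc_conj`), so `LLc` too, `RR` too, then `FF_ldc_conj'` -/
theorem VV_ldc_conj {q : ℕ} {g g' : ℕ → ℂ} {k0 N j0 : ℕ} {W v : ℂ}
    (h : ∀ j, 1 ≤ j → j < k0 → g' j = starRingEnd ℂ (g j)) (k : ℕ) :
    FF.ldc (VV q g' k0 N (starRingEnd ℂ W) (starRingEnd ℂ v) j0) k =
      starRingEnd ℂ (FF.ldc (VV q g k0 N W v j0) k) := by
  have hL : ∀ j, FF.LL q g' k0 N (starRingEnd ℂ W) j = starRingEnd ℂ (FF.LL q g k0 N W j) := by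
    intro j
    unfold FF.LL
    rw [map_add]
    congr 1
    · by_cases hj : j < k0
      · rw [if_pos hj, if_pos hj]
        exact FF_expc_conj g g' j fun i hi1 hi2 => h i hi1 (by omega)
      · rw [if_neg hj, if_neg hj, map_zero]
    · by_cases hj : j ≤ N ∧ N - j < k0
      · rw [if_pos hj, if_pos hj, map_mul, map_mul, Complex.conj_ofReal,
          FF_expc_conj g g' (N - j) fun i hi1 hi2 => h i hi1 (by omega)]
      · rw [if_neg hj, if_neg hj, map_zero]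
  have hC : LLc q g' k0 N (starRingEnd ℂ W) = starRingEnd ℂ (LLc q g k0 N W) := by
    unfold LLc
    rw [map_sum]
    refine Finset.sum_congr rfl fun j _ => ?_
    rw [hL, map_mul, map_pow, Complex.conj_ofReal]
  have hV : VV q g' k0 N (starRingEnd ℂ W) (starRingEnd ℂ v) j0 =
      fun j => starRingEnd ℂ (VV q g k0 N W v j0 j) := by
    funext j
    unfold VV
    rw [hL, map_add, hC]
    congr 1
    have hy : ((√(q : ℝ) ^ j0 : ℝ) : ℂ) * ((starRingEnd ℂ v - starRingEnd ℂ (LLc q g k0 N W)) / 2) =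
        starRingEnd ℂ (((√(q : ℝ) ^ j0 : ℝ) : ℂ) * ((v - LLc q g k0 N W) / 2)) := by
      rw [map_mul, Complex.conj_ofReal, map_div₀, map_sub]
      have h2' : starRingEnd ℂ (2 : ℂ) = 2 := by
        exact Complex.conj_ofNat 2
      rw [h2']
    rw [hy]
    unfold RR
    rw [map_add]
    congr 1
    · by_cases hj : j = j0
      · rw [if_pos hj, if_pos hj]
      · rw [if_neg hj, if_neg hj, map_zero]
    · by_cases hj : j + j0 = N
      · rw [if_pos hj, if_pos hj, map_mul (starRingEnd ℂ) (W * _), map_mul (starRingEnd ℂ) W,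
          Complex.conj_ofReal]
      · rw [if_neg hj, if_neg hj, map_zero]
  rw [hV]
  exact FF_ldc_conj' _ k

/-- `TT_LL_per'`, and `RR` is supported at `j0` and `N - j0`; `TT_ldc_per` -/
theorem VV_ldc_per {q : ℕ} {g : ℕ → ℂ} {k0 N j0 : ℕ} {W v : ℂ} {p : ℕ} (hg : ∀ j : ℕ, ¬ p ∣ j → g j = 0)
    (hN : p ∣ N) (hj0 : p ∣ j0) (h2 : 2 * j0 ≤ N) (k : ℕ) (hk : ¬ p ∣ k) : FF.ldc (VV q g k0 N W v j0) k = 0 := by
  refine TT_ldc_per _ p (fun j hj => ?_) k hk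
  unfold VV
  rw [TT_LL_per' q g k0 N W p hg hN j hj, zero_add]
  unfold RR
  rw [if_neg, if_neg, add_zero]
  · intro h
    apply hj
    have h3 : j = N - j0 := by omega
    rw [h3]
    exact Nat.dvd_sub hN hj0
  · intro h
    apply hj
    rw [h]
    exact hj0

end Pool.Agent.H497.TV
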