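import Pool.Agent.H497.TV.Alg1

set_option autoImplicit false



namespace Pool.Agent.H497.TV

/- available (proved elsewhere), leave these sorrys -/

/- available (proved elsewhere), leave these sorrys -/

/- to be proved -/

/-- Put `k0 = κ (c+1) + kb`, `g = T - z`, `S` the sum in `NumV.core`, `r = q^(-(1/2+4η))`, `r1 = q^(-(1/2+3η))`.
`‖g j‖ / j * r1^j ≤ ((B+1)(c+H+1)) q^((1/2+2η)j) r1^j` (as `c + H + B (c+1) ≤ (B+1)(c+H+1)`, `1 ≤ j`), so the sum is `≤ S`.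
Apply `coreV` with `4η`, `r`, `r1`, `S`, `e = RR q N W j0 y`, `y = √q^j0 * ((v - LLc)/2)`, `ε = 2 ‖y‖ r^j0` (`RR_norm`).
`‖y‖ r^j0 = ‖v - LLc‖/2 q^(-4η j0)`, `‖v‖ ≤ q^(η N)`, `‖LLc‖ ≤ 2 exp(S) q^(3η k0)` (`LLc_bound` with `3η`), and
`3 j0 ≥ N ≥ 6 k0`, so `exp(S) ε ≤ exp(S) (q^(ηN) + 2 exp(S) q^(3ηk0)) q^(-4ηN/3) ≤ 3 exp(2S) q^(-ηN/3) ≤ 3/64`, and the first
part of `hρ` is `≤ 1/64`. So `‖ldc .. k‖ ≤ k/2 (r^k)⁻¹ = k/2 q^((1/2+4η)k)`. Finally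
`‖z k‖ ≤ B (c+1) q^((1/2+2η)k) ≤ (k/2) q^((1/2+4η)k)` as `2 B (c+1) ≤ κ (c+1) ≤ k0 ≤ k`. -/
theorem niceV_bound {q : ℕ} (hq : 2 ≤ q) {η : ℝ} (hη : 0 < η) {κ ν B kb N0 : ℕ} {H : ℝ} (hH : 0 ≤ H)
    (hNum : NumV q η κ ν B H kb N0) {c N j0 : ℕ} (hN : ν * (c + 1) + N0 ≤ N) (hj1 : 2 * j0 ≤ N) (hj2 : N ≤ 3 * j0)
    {W v : ℂ} (hW : ‖W‖ = 1) (hv : ‖v‖ ≤ (q : ℝ) ^ (η * N)) {z T : ℕ → ℂ}
    (hz : ∀ k, ‖z k‖ ≤ (B : ℝ) * ((c : ℝ) + 1) * (q : ℝ) ^ ((1 / 2 + 2 * η) * k))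
    (hT : ∀ j, 1 ≤ j → j < κ * (c + 1) + kb → ‖T j‖ ≤ j * (((c : ℝ) + H) * (q : ℝ) ^ ((1 / 2 + 2 * η) * j)))
    {k : ℕ} (hk : κ * (c + 1) + kb ≤ k) :
    ‖z k + FF.ldc (VV q (fun j => T j - z j) (κ * (c + 1) + kb) N W v j0) k‖ ≤
      k * (q : ℝ) ^ ((1 / 2 + 4 * η) * k) := by
  obtain ⟨h6, hcore⟩ := hNum.core c N hN
  obtain ⟨k0, hk0⟩ : ∃ k0 : ℕ, k0 = κ * (c + 1) + kb := ⟨_, rfl⟩
  rw [← hk0] at h6 hcore hT hk ⊢
  have hQ2 : (2 : ℝ) ≤ (q : ℝ) := by exact_mod_cast hq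
  have hQ0 : (0 : ℝ) < (q : ℝ) := by linarith
  have hQ1 : (1 : ℝ) ≤ (q : ℝ) := by linarith
  have hQ1' : (1 : ℝ) < (q : ℝ) := by linarith
  have hc0 : (0 : ℝ) ≤ (c : ℝ) := Nat.cast_nonneg c
  have hB0 : (0 : ℝ) ≤ (B : ℝ) := Nat.cast_nonneg B
  have hkb := hNum.kb1
  have hk01 : 1 ≤ k0 := by omega
  have hk0j : k0 ≤ j0 := by omega
  obtain ⟨r, hr⟩ : ∃ r : ℝ, r = (q : ℝ) ^ (-(1 / 2 + 4 * η)) := ⟨_, rfl⟩
  obtain ⟨r1, hr1⟩ : ∃ r1 : ℝ, r1 = (q : ℝ) ^ (-(1 / 2 + 3 * η)) := ⟨_, rfl⟩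
  obtain ⟨S, hS⟩ : ∃ S : ℝ, S = ∑ j ∈ Finset.Ico 1 k0,
        (((B : ℝ) + 1) * ((c : ℝ) + H + 1)) * (q : ℝ) ^ ((1 / 2 + 2 * η) * j) * r1 ^ j := ⟨_, rfl⟩
  rw [← hr, ← hr1, ← hS] at hcore
  have hr0 : 0 < r := by rw [hr]; positivity
  have hr10 : 0 < r1 := by rw [hr1]; positivity
  have hrr1 : r < r1 := by
    rw [hr, hr1]
    exact Real.rpow_lt_rpow_of_exponent_lt hQ1' (by linarith)
  have hS0 : 0 ≤ S := by
    rw [hS]
    refine Finset.sum_nonneg fun j _ => ?_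
    positivity
  -- the sum of the coefficients of g
  have hB1 : ∑ j ∈ Finset.Ico 1 k0, ‖(fun j => T j - z j) j‖ / j * r1 ^ j ≤ S := by
    rw [hS]
    refine Finset.sum_le_sum fun j hj => ?_
    obtain ⟨hj1', hj2'⟩ := Finset.mem_Ico.1 hj
    have hj0 : (1 : ℝ) ≤ (j : ℝ) := by exact_mod_cast hj1'
    refine mul_le_mul_of_nonneg_right ?_ (by positivity)
    rw [div_le_iff₀ (by linarith)]
    have e1 := hT j hj1' hj2'
    have e2 := hz j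
    have e3 : ‖T j - z j‖ ≤ ‖T j‖ + ‖z j‖ := norm_sub_le _ _
    obtain ⟨P, hP⟩ : ∃ P : ℝ, P = (q : ℝ) ^ ((1 / 2 + 2 * η) * j) := ⟨_, rfl⟩
    have hP0 : 0 < P := by rw [hP]; positivity
    rw [← hP] at e1 e2 ⊢
    have e4 : (B : ℝ) * ((c : ℝ) + 1) * P ≤ (B : ℝ) * ((c : ℝ) + 1) * P * j :=
      le_mul_of_one_le_right (by positivity) hj0
    have e5 : (j : ℝ) * (((c : ℝ) + H) * P) + (B : ℝ) * ((c : ℝ) + 1) * P * j =
        (((c : ℝ) + H) + (B : ℝ) * ((c : ℝ) + 1)) * P * j := by ring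
    have e6 : (((c : ℝ) + H) + (B : ℝ) * ((c : ℝ) + 1)) * P * j ≤
        ((B : ℝ) + 1) * ((c : ℝ) + H + 1) * P * j := by
      have : ((c : ℝ) + H) + (B : ℝ) * ((c : ℝ) + 1) ≤ ((B : ℝ) + 1) * ((c : ℝ) + H + 1) := by
        have : 0 ≤ (B : ℝ) * H := by positivity
        linarith
      gcongr
    show ‖T j - z j‖ ≤ _
    linarith
  -- the value at the central point
  have hL := LLc_bound hq (fun j => T j - z j) hW (show 2 * k0 ≤ N by omega)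
    (show 0 < 3 * η by linarith) hr1 hB1
  obtain ⟨y, hy⟩ : ∃ y : ℂ, y = (√(q : ℝ) ^ j0 : ℝ) *
      ((v - LLc q (fun j => T j - z j) k0 N W) / 2) := ⟨_, rfl⟩
  have hyr : 2 * ‖y‖ * r ^ j0 = ‖v - LLc q (fun j => T j - z j) k0 N W‖ *
      (q : ℝ) ^ (-(4 * η) * j0) := by
    have e1 : √(q : ℝ) ^ j0 * r ^ j0 = (q : ℝ) ^ (-(4 * η) * j0) := by
      rw [← mul_pow, Real.sqrt_eq_rpow, hr, ← Real.rpow_add hQ0, Real.rpow_mul hQ0.le,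
        Real.rpow_natCast]
      congr 2
      ring
    have e2 : ‖y‖ = √(q : ℝ) ^ j0 * (‖v - LLc q (fun j => T j - z j) k0 N W‖ / 2) := by
      rw [hy, norm_mul, Complex.norm_real, Real.norm_of_nonneg (by positivity), norm_div]
      norm_num
    rw [e2, ← e1]
    ring
  have hE1 : 1 ≤ Real.exp S := Real.one_le_exp hS0
  have hE2 : Real.exp (2 * S) = Real.exp S * Real.exp S := by
    rw [← Real.exp_add]
    congr 1
    ring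
  have hk0N : (q : ℝ) ^ (3 * η * k0) ≤ (q : ℝ) ^ (η * N) := by
    refine Real.rpow_le_rpow_of_exponent_le hQ1 ?_
    have e1 : 6 * (k0 : ℝ) ≤ N := by exact_mod_cast h6
    have e2 : 3 * η * k0 ≤ 3 * η * (N / 6) := by
      refine mul_le_mul_of_nonneg_left ?_ (by positivity)
      linarith
    have e3 : 3 * η * (N / 6) ≤ η * N := by
      have : 0 ≤ η * N := by positivity
      linarith
    linarith
  have hQN : 0 < (q : ℝ) ^ (η * N) := by positivity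
  have hvL : ‖v - LLc q (fun j => T j - z j) k0 N W‖ ≤ 3 * (Real.exp S * (q : ℝ) ^ (η * N)) := by
    have e1 := norm_sub_le v (LLc q (fun j => T j - z j) k0 N W)
    have e2 : Real.exp S * (q : ℝ) ^ (3 * η * k0) ≤ Real.exp S * (q : ℝ) ^ (η * N) :=
      mul_le_mul_of_nonneg_left hk0N (Real.exp_pos _).le
    have e3 : (q : ℝ) ^ (η * N) ≤ Real.exp S * (q : ℝ) ^ (η * N) :=
      le_mul_of_one_le_left hQN.le hE1
    linarith
  have hj0N : (q : ℝ) ^ (-(4 * η) * j0) ≤ (q : ℝ) ^ (-(4 * η) * (N / 3)) := by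
    refine Real.rpow_le_rpow_of_exponent_le hQ1 ?_
    have e1 : (N : ℝ) ≤ 3 * j0 := by exact_mod_cast hj2
    have e2 : (N : ℝ) / 3 ≤ j0 := by linarith
    have e3 : 4 * η * ((N : ℝ) / 3) ≤ 4 * η * j0 :=
      mul_le_mul_of_nonneg_left e2 (by positivity)
    linarith
  have hprod : (q : ℝ) ^ (η * N) * (q : ℝ) ^ (-(4 * η) * (N / 3)) = (q : ℝ) ^ (-(η / 3 * N)) := by
    rw [← Real.rpow_add hQ0]
    congr 1
    ring
  have heps : Real.exp S * (2 * ‖y‖ * r ^ j0) ≤ 3 * (Real.exp (2 * S) * (q : ℝ) ^ (-(η / 3 * N))) := by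
    rw [hyr]
    calc Real.exp S * (‖v - LLc q (fun j => T j - z j) k0 N W‖ * (q : ℝ) ^ (-(4 * η) * j0))
        ≤ Real.exp S * ((3 * (Real.exp S * (q : ℝ) ^ (η * N))) *
            (q : ℝ) ^ (-(4 * η) * (N / 3))) := by
          refine mul_le_mul_of_nonneg_left ?_ (Real.exp_pos _).le
          exact mul_le_mul hvL hj0N (by positivity) (by positivity)
      _ = 3 * (Real.exp S * Real.exp S * ((q : ℝ) ^ (η * N) *
            (q : ℝ) ^ (-(4 * η) * (N / 3)))) := by ring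
      _ = _ := by rw [hprod, ← hE2]
  have hA : 0 ≤ (r / r1) ^ k0 := by positivity
  have hA2 : 0 ≤ (q : ℝ) ^ (-(4 * η) * N + 2 * (4 * η) * (k0 : ℕ)) := by positivity
  have hA3 : 0 ≤ (q : ℝ) ^ (-(η / 3 * N)) := by positivity
  have hE0 : 0 < Real.exp (2 * S) := Real.exp_pos _
  have hsplit : Real.exp (2 * S) * ((r / r1) ^ k0 +
      (q : ℝ) ^ (-(4 * η) * N + 2 * (4 * η) * (k0 : ℕ)) + (q : ℝ) ^ (-(η / 3 * N))) =
      Real.exp (2 * S) * ((r / r1) ^ k0 +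
      (q : ℝ) ^ (-(4 * η) * N + 2 * (4 * η) * (k0 : ℕ))) +
      Real.exp (2 * S) * (q : ℝ) ^ (-(η / 3 * N)) := by ring
  rw [hsplit] at hcore
  have hP1 : 0 ≤ Real.exp (2 * S) * ((r / r1) ^ k0 +
      (q : ℝ) ^ (-(4 * η) * N + 2 * (4 * η) * (k0 : ℕ))) := by positivity
  have hP2 : 0 ≤ Real.exp (2 * S) * (q : ℝ) ^ (-(η / 3 * N)) := by positivity
  have hρ : Real.exp (2 * S) * ((r / r1) ^ k0 +
      (q : ℝ) ^ (-(4 * η) * N + 2 * (4 * η) * (k0 : ℕ))) +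
      Real.exp S * (2 * ‖y‖ * r ^ j0) ≤ 1 / 4 := by
    linarith
  have hmain := coreV q hq (4 * η) r r1 S (by linarith) hr hrr1 (fun j => T j - z j) k0 N W hW
    hk01 (by omega) hB1 (RR q N W j0 y) (fun j hj => RR_low hj1 (by omega))
    (2 * ‖y‖ * r ^ j0) (fun K => RR_norm hq hW hj1 (show 0 < 4 * η by linarith) hr K) hρ k hk
  have hVV : (fun j => FF.LL q (fun j => T j - z j) k0 N W j + RR q N W j0 y j) =
      VV q (fun j => T j - z j) k0 N W v j0 := by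
    funext j
    unfold VV
    rw [hy]
  rw [hVV] at hmain
  have hrk : (r ^ k)⁻¹ = (q : ℝ) ^ ((1 / 2 + 4 * η) * k) := by
    rw [hr, ← Real.rpow_natCast, ← Real.rpow_mul hQ0.le, ← Real.rpow_neg hQ0.le]
    congr 1
    ring
  rw [hrk] at hmain
  have hzk : ‖z k‖ ≤ k / 2 * (q : ℝ) ^ ((1 / 2 + 4 * η) * k) := by
    refine (hz k).trans ?_
    have e1 : 2 * (B : ℝ) * ((c : ℝ) + 1) ≤ k := by
      have e2 : 2 * B * (c + 1) ≤ k := by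
        have e3 : 2 * B * (c + 1) ≤ κ * (c + 1) := Nat.mul_le_mul_right _ hNum.κB
        omega
      exact_mod_cast e2
    have e4 : (q : ℝ) ^ ((1 / 2 + 2 * η) * k) ≤ (q : ℝ) ^ ((1 / 2 + 4 * η) * k) := by
      refine Real.rpow_le_rpow_of_exponent_le hQ1 ?_
      have : (0 : ℝ) ≤ (k : ℝ) := Nat.cast_nonneg k
      have h2 : 0 ≤ η * k := by positivity
      linarith
    have e5 : (B : ℝ) * ((c : ℝ) + 1) ≤ k / 2 := by linarith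
    exact mul_le_mul e5 e4 (by positivity) (by positivity)
  refine (norm_add_le _ _).trans ?_
  have e7 : (k : ℝ) * (q : ℝ) ^ ((1 / 2 + 4 * η) * k) =
      k / 2 * (q : ℝ) ^ ((1 / 2 + 4 * η) * k) + k / 2 * (q : ℝ) ^ ((1 / 2 + 4 * η) * k) := by ring
  rw [e7]
  exact add_le_add hzk hmain

end Pool.Agent.H497.TV
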