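import Pool.Agent.H497.TV.Step

set_option autoImplicit false



namespace Pool.Agent.H497.TV

open MeasureTheory Pool.Agent.H497.TT Pool.Agent.H497.TU


variable {𝓟 𝓧 G : Type}


/- to be proved; adapt Pool/Agent/H497/TT/Limit.lean (origin/main) -/

/-- `GoodU ... K` depends only on the `g P` with `deg P < K` (`TS_congr`; at `eqn` `Tgt.congr` with
`κ (c χ + 1) + kb i ≤ k < K`). -/
theorem GoodV_congr {S : TSys 𝓟 𝓧} {D : RD G} {σ τ η : ℝ} {κ : ℕ} {kb M : ℕ → ℕ} {T : Set 𝓟} {C : ℕ}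
    {pt : ℕ → 𝓟 → ℕ → ℂ} {H : ℕ → ℝ} {tgt : ℕ → 𝓧 → (ℕ → ℂ) → ℕ → ℂ} (htgt : TgtV S D σ τ η κ kb H tgt) {g g' : 𝓟 → G}
    {K : ℕ} (h : ∀ P, S.deg P < K → g P = g' P) (hG : GoodU S D τ η κ kb M C tgt (PW D T pt g) K) :
    GoodU S D τ η κ kb M C tgt (PW D T pt g') K := by
  have hPW : ∀ (i : ℕ) (P : 𝓟), S.deg P < K → PW D T pt g i P = PW D T pt g' i P := by
    intro i P hP
    funext e
    unfold PW
    rw [h P hP]
  have hTS : ∀ (i : ℕ) (χ : 𝓧) (k : ℕ), k < K →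
      S.TS (PW D T pt g' i) χ k = S.TS (PW D T pt g i) χ k := by
    intro i χ k hk
    exact TS_congr S _ _ χ fun P hP => (hPW i P (lt_of_le_of_lt hP hk)).symm
  constructor
  · intro i χ k h1 h2 h3
    have h4 := hG.low i χ k h1 h2 h3
    have h5 : ∑ P ∈ S.Pr k, PW D T pt g' i P 1 * S.lam χ P 1 =
        ∑ P ∈ S.Pr k, PW D T pt g i P 1 * S.lam χ P 1 := by
      refine Finset.sum_congr rfl fun P hP => ?_
      rw [hPW i P (by rw [(S.mem_Pr k P).1 hP]; exact h2)]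
    rw [h5]
    exact h4
  · intro i χ k h1 h2
    rw [hTS i χ k h2, hG.eqn i χ k h1 h2]
    exact htgt.congr i χ _ _ k fun j _ hj => (hTS i χ j (by omega)).symm

theorem limitV {S : TSys 𝓟 𝓧} {D : RD G} {σ τ η : ℝ} (hτ : 1 / 2 ≤ τ) (hτσ : τ ≤ σ) (hη : 0 < η) {κ : ℕ} (hκ : 1 ≤ κ)
    {kb M : ℕ → ℕ} (hMkb : ∀ i, M i ≤ kb i) (hkb1 : ∀ i, 1 ≤ kb i)
    {T : Set 𝓟} {h : 𝓟 → ℝ} {C : ℕ} (hT : Thin S τ T h C)
    (hkH : ∀ i, 1 + H2 S D C M i ≤ (S.q : ℝ) ^ (η * kb i))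
    {pt : ℕ → 𝓟 → ℕ → ℂ} (hpt : Pt D T h pt) {tgt : ℕ → 𝓧 → (ℕ → ℂ) → ℕ → ℂ}
    (htgt : TgtV S D σ τ η κ kb (H2 S D C M) tgt)
    (hM : ∀ K, ∃ m, (∀ i, M i ≤ K → i < m) ∧ SolvV S T D σ τ η κ m K) (g0 : 𝓟 → G) :
    ∃ g : 𝓟 → G, ∀ K, GoodU S D τ η κ kb M C tgt (PW D T pt g) K := by
  have hstep : ∀ (K : ℕ) (g : 𝓟 → G), GoodU S D τ η κ kb M C tgt (PW D T pt g) K →
      ∃ g' : 𝓟 → G, (∀ P, S.deg P ≠ K → g' P = g P) ∧
        GoodU S D τ η κ kb M C tgt (PW D T pt g') (K + 1) := fun K g hG =>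
    stepV hτ hτσ hη hκ hMkb hkb1 hT hkH hpt htgt (hM K) hG
  choose f hf1 hf3 using hstep
  have h00 : GoodU S D τ η κ kb M C tgt (PW D T pt g0) 0 :=
    ⟨fun i χ k _ h _ => absurd h (Nat.not_lt_zero k), fun i χ k _ h => absurd h (Nat.not_lt_zero k)⟩
  let sq : (K : ℕ) → {g : 𝓟 → G // GoodU S D τ η κ kb M C tgt (PW D T pt g) K} := fun K =>
    Nat.rec (motive := fun K => {g : 𝓟 → G // GoodU S D τ η κ kb M C tgt (PW D T pt g) K})
      ⟨g0, h00⟩ (fun K r => ⟨f K r.1 r.2, hf3 K r.1 r.2⟩) K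
  have hs : ∀ K, (sq (K + 1)).1 = f K (sq K).1 (sq K).2 := fun K => rfl
  have hstab : ∀ (P : 𝓟) (K : ℕ), S.deg P + 1 ≤ K → (sq K).1 P = (sq (S.deg P + 1)).1 P := by
    intro P K hK
    induction K, hK using Nat.le_induction with
    | base => rfl
    | succ K hK ih =>
      rw [hs K, hf1 K _ _ P (by omega), ih]
  refine ⟨fun P => (sq (S.deg P + 1)).1 P, fun K => ?_⟩
  exact GoodV_congr htgt (fun P hP => hstab P K hP) (sq K).2

/-- as `exists_M` in Pool/Agent/H497/TT/Limit.lean (origin/main) -/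
theorem exists_MV [Nonempty G] {S : TSys 𝓟 𝓧} {T : Set 𝓟} {D : RD G} {σ τ η : ℝ} {κ : ℕ}
    (h : ∀ m, ∃ K0, ∀ K, K0 ≤ K → SolvV S T D σ τ η κ m K) :
    ∃ M : ℕ → ℕ, ∀ K, ∃ m, (∀ i, M i ≤ K → i < m) ∧ SolvV S T D σ τ η κ m K := by
  choose K0 hK0 using h
  let M : ℕ → ℕ := fun i => 1 + i + ∑ m ∈ Finset.range (i + 2), K0 m
  have hMdef : ∀ i, M i = 1 + i + ∑ m ∈ Finset.range (i + 2), K0 m := fun i => rfl
  have hmono : Monotone M := by
    refine monotone_nat_of_le_succ fun i => ?_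
    rw [hMdef, hMdef, Finset.sum_range_succ _ (i + 2)]
    omega
  refine ⟨M, fun K => ?_⟩
  have hex : ∃ m, K < M m := ⟨K, by rw [hMdef]; omega⟩
  classical
  refine ⟨Nat.find hex, fun i hi => ?_, ?_⟩
  · by_contra hcon
    push Not at hcon
    have h1 := hmono hcon
    have h2 := Nat.find_spec hex
    omega
  · rcases hm : Nat.find hex with _ | m'
    · intro b _ _
      exact ⟨fun _ => Classical.arbitrary G, fun i hi => absurd hi (Nat.not_lt_zero i),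
        fun i hi => absurd hi (Nat.not_lt_zero i)⟩
    · refine hK0 (m' + 1) K ?_
      have h1 : ¬ K < M m' := Nat.find_min hex (by rw [hm]; exact Nat.lt_succ_self m')
      have h2 : K0 (m' + 1) ≤ ∑ m ∈ Finset.range (m' + 2), K0 m :=
        Finset.single_le_sum (f := K0) (fun _ _ => Nat.zero_le _)
          (Finset.mem_range.2 (by omega))
      rw [hMdef] at h1
      omega


end Pool.Agent.H497.TV
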