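import Pool.Agent.H497.TU.Defs

set_option autoImplicit false

namespace Pool.Agent.H497.TV

open MeasureTheory Pool.Agent.H497.TT Pool.Agent.H497.TU

noncomputable section

variable {𝓟 𝓧 : Type}

/-- as `SolvS`; the prescribed sums may be as large as `q^((σ+5η)K)`, the others are at most of size `q^((τ+2η)K)` -/
def SolvV {G : Type} (S : TSys 𝓟 𝓧) (T : Set 𝓟) (D : RD G) (σ τ η : ℝ) (κ m K : ℕ) : Prop :=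
  ∀ b : ℕ → 𝓧 → ℂ, (∀ i < m, ∀ χ ∈ S.X κ K, ‖b i χ‖ ≤ (S.q : ℝ) ^ ((σ + 5 * η) * K)) →
    (∀ i < m, D.sd i → ∀ χ ∈ S.X κ K, b i (S.bar χ) = starRingEnd ℂ (b i χ)) →
    ∃ g : 𝓟 → G, (∀ i < m, ∀ χ ∈ S.X κ K, ∑ P ∈ FPr S T K, D.pw i (g P) 1 * S.lam χ P 1 = b i χ) ∧
      ∀ i < m, ∀ χ, χ ∉ S.X κ K → ‖∑ P ∈ FPr S T K, D.pw i (g P) 1 * S.lam χ P 1‖ ≤
        ((S.c χ : ℝ) + 2) * (S.q : ℝ) ^ ((τ + 2 * η) * K)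

/-- as `Tgt`, with the exponent `τ` for the power sums of low degree and `σ` for the prescribed ones -/
structure TgtV {G : Type} (S : TSys 𝓟 𝓧) (D : RD G) (σ τ η : ℝ) (κ : ℕ) (kb : ℕ → ℕ) (H : ℕ → ℝ)
    (tgt : ℕ → 𝓧 → (ℕ → ℂ) → ℕ → ℂ) : Prop where
  congr : ∀ (i : ℕ) (χ : 𝓧) (T T' : ℕ → ℂ) (k : ℕ),
    (∀ j, 1 ≤ j → j < κ * (S.c χ + 1) + kb i → T j = T' j) → tgt i χ T k = tgt i χ T' k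
  bound : ∀ (i : ℕ) (χ : 𝓧) (T : ℕ → ℂ), (∀ j, 1 ≤ j → j < κ * (S.c χ + 1) + kb i →
      ‖T j‖ ≤ j * (((S.c χ : ℝ) + H i) * (S.q : ℝ) ^ ((τ + 2 * η) * j))) →
    ∀ k, κ * (S.c χ + 1) + kb i ≤ k → ‖tgt i χ T k‖ ≤ k * (S.q : ℝ) ^ ((σ + 4 * η) * k)
  sd : ∀ i, D.sd i → ∀ (χ : 𝓧) (T T' : ℕ → ℂ),
    (∀ j, 1 ≤ j → j < κ * (S.c χ + 1) + kb i → T' j = starRingEnd ℂ (T j)) →
    ∀ k, tgt i (S.bar χ) T' k = starRingEnd ℂ (tgt i χ T k)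
  per : ∀ (i : ℕ) (χ : 𝓧) (T : ℕ → ℂ), (∀ j, ¬ S.per χ ∣ j → T j = 0) → ∀ k, ¬ S.per χ ∣ k → tgt i χ T k = 0

/-- two additional coefficients, at `j0` and `N - j0` -/
def RR (q : ℕ) (N : ℕ) (W : ℂ) (j0 : ℕ) (y : ℂ) (j : ℕ) : ℂ :=
  (if j = j0 then y else 0) +
    (if j + j0 = N then W * starRingEnd ℂ y * ((√(q : ℝ) ^ N / (q : ℝ) ^ j0 : ℝ) : ℂ) else 0)

/-- the value of `LL q g k0 N W` at `u = q^(-1/2)` -/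
def LLc (q : ℕ) (g : ℕ → ℂ) (k0 N : ℕ) (W : ℂ) : ℂ :=
  ∑ j ∈ Finset.range (N + 1), FF.LL q g k0 N W j * ((1 / √(q : ℝ) : ℝ) : ℂ) ^ j

/-- coefficients of a polynomial with functional equation, with prescribed power sums in degrees `< k0` and the value
`v` at `u = q^(-1/2)` -/
def VV (q : ℕ) (g : ℕ → ℂ) (k0 N : ℕ) (W v : ℂ) (j0 j : ℕ) : ℂ :=
  FF.LL q g k0 N W j + RR q N W j0 ((√(q : ℝ) ^ j0 : ℝ) * ((v - LLc q g k0 N W) / 2)) j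

/-- numerical conditions -/
structure NumV (q : ℕ) (η : ℝ) (κ ν B : ℕ) (H : ℝ) (kb N0 : ℕ) : Prop where
  kb1 : 1 ≤ kb
  kbH : 1 + H ≤ (q : ℝ) ^ (η * kb)
  κB : 2 * B ≤ κ
  core : ∀ c N : ℕ, ν * (c + 1) + N0 ≤ N → 6 * (κ * (c + 1) + kb) ≤ N ∧
    Real.exp (2 * ∑ j ∈ Finset.Ico 1 (κ * (c + 1) + kb),
        (((B : ℝ) + 1) * ((c : ℝ) + H + 1)) * (q : ℝ) ^ ((1 / 2 + 2 * η) * j) * ((q : ℝ) ^ (-(1 / 2 + 3 * η))) ^ j) *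
      (((q : ℝ) ^ (-(1 / 2 + 4 * η)) / (q : ℝ) ^ (-(1 / 2 + 3 * η))) ^ (κ * (c + 1) + kb) +
        (q : ℝ) ^ (-(4 * η) * N + 2 * (4 * η) * (κ * (c + 1) + kb : ℕ)) + (q : ℝ) ^ (-(η / 3 * N))) ≤ 1 / 64

end

end Pool.Agent.H497.TV
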