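import Pool.Agent.H497.TT.Par
import Pool.Agent.H497.TV.Defs

set_option autoImplicit false



namespace Pool.Agent.H497.TV

theorem par_geom (m : ℕ) (y : ℝ) (hy : 0 < y) :
    ∑ j ∈ Finset.Ico 1 m, Real.exp (-y) ^ j ≤ 1 / y := by
  have hx0 : 0 < Real.exp (-y) := Real.exp_pos _
  have h1 : ∀ m : ℕ, y * ∑ j ∈ Finset.Ico 1 m, Real.exp (-y) ^ j ≤ 1 - Real.exp (-y) ^ (m - 1) := by
    intro m
    induction m with
    | zero => simp
    | succ m ih =>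
      rcases Nat.eq_zero_or_pos m with h | h
      · subst h
        simp
      · rw [Finset.sum_Ico_succ_top h]
        have e1 : m + 1 - 1 = (m - 1) + 1 := by omega
        rw [e1]
        have e2 : m = (m - 1) + 1 := by omega
        have hp : 0 < Real.exp (-y) ^ (m - 1) := pow_pos hx0 _
        have e3 : Real.exp (-y) ^ m = Real.exp (-y) ^ (m - 1) * Real.exp (-y) := by
          conv_lhs => rw [e2]
          rw [pow_succ]
        rw [pow_succ, mul_add, e3]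
        have h2 : (y + 1) * Real.exp (-y) ≤ 1 := by
          have h3 := Real.add_one_le_exp y
          calc (y + 1) * Real.exp (-y) ≤ Real.exp y * Real.exp (-y) :=
                mul_le_mul_of_nonneg_right h3 hx0.le
            _ = 1 := by rw [← Real.exp_add]; simp
        nlinarith [mul_le_mul_of_nonneg_left h2 hp.le]
  have h2 := h1 m
  have h3 : 0 < Real.exp (-y) ^ (m - 1) := pow_pos hx0 _
  rw [le_div_iff₀ hy]
  linarith

theorem exp_neg_six : Real.exp (-6) ≤ 1 / 192 := by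
  rw [Real.exp_neg, one_div]
  apply inv_anti₀ (by norm_num)
  have h1 : Real.exp 6 = Real.exp 1 ^ 6 := by
    rw [← Real.exp_nat_mul]
    norm_num
  rw [h1]
  have h2 : (2.7 : ℝ) ≤ Real.exp 1 := by
    have := Real.exp_one_gt_d9
    linarith
  calc (192 : ℝ) ≤ 2.7 ^ 6 := by norm_num
    _ ≤ Real.exp 1 ^ 6 := pow_le_pow_left₀ (by norm_num) h2 6

/- to be proved -/

/-- Adapt the proof of `paramsU` in Pool/Agent/H497/TU/Par.lean (origin/main; it uses `par_geom` of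
Pool/Agent/H497/TT/Par.lean), the case without `B` and the last term. With `y = log q * η`, `y0 = log 2 * η`: take
`κ = ⌈2 (B+1) / y0^2⌉ + ⌈8/η⌉ a + 2 B + 1`, `kb ≥ M + 1`, `y kb ≥ 2 (B+1)(H+1)/y + 6 + H`, `N0 = 6 kb`, and `ν0` with
`6 κ ≤ ν0 (a+1)`. The exponential is `≤ exp (2 (B+1)(c+H+1)/y)` (`par_geom`), each of the three terms is
`≤ exp (- y k0)` (`(r/r1)^k0 = q^(-η k0)`; `-4ηN + 8ηk0 ≤ -η k0`, `η/3 N ≥ 2 η k0`, as `N ≥ 6 k0`), and
`2 (B+1)(c+H+1)/y - y k0 ≤ -6`, `3 exp (-6) ≤ 1/64`. -/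
theorem paramsV (η : ℝ) (hη : 0 < η) (B : ℕ) : ∃ ν0 : ℕ, ∀ (q : ℕ), 2 ≤ q → ∀ a : ℕ,
    ∃ κ : ℕ, 1 ≤ κ ∧ 8 * (a : ℝ) ≤ η * κ ∧ ∀ (H : ℝ) (M : ℕ), 0 ≤ H → ∃ kb N0 : ℕ, M ≤ kb ∧
      NumV q η κ (ν0 * (a + 1)) B H kb N0 := by
  have hl2 : 0 < Real.log 2 := Real.log_pos (by norm_num)
  obtain ⟨y0, hy0'⟩ : ∃ y0 : ℝ, y0 = Real.log 2 * η := ⟨_, rfl⟩
  have hy00 : 0 < y0 := by rw [hy0']; positivity
  obtain ⟨b, hb⟩ : ∃ b : ℝ, b = (B : ℝ) + 1 := ⟨_, rfl⟩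
  have hb1 : 1 ≤ b := by
    have : (0 : ℝ) ≤ B := Nat.cast_nonneg B
    linarith
  have hb0 : 0 < b := by linarith
  refine ⟨6 * (⌈2 * b / y0 ^ 2⌉₊ + ⌈8 / η⌉₊ + 2 * B + 1), fun q hq a => ?_⟩
  have hq' : (2 : ℝ) ≤ q := by exact_mod_cast hq
  have hq0 : (0 : ℝ) < q := by linarith
  obtain ⟨L, hL⟩ : ∃ L : ℝ, L = Real.log q := ⟨_, rfl⟩
  have hL0 : 0 < L := by rw [hL]; exact Real.log_pos (by linarith)
  have hrp : ∀ y : ℝ, (q : ℝ) ^ y = Real.exp (L * y) := fun y => by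
    rw [hL]; exact Real.rpow_def_of_pos hq0 y
  obtain ⟨y, hy⟩ : ∃ y : ℝ, y = L * η := ⟨_, rfl⟩
  have hy0 : 0 < y := by rw [hy]; positivity
  have hyy : y0 ≤ y := by
    rw [hy0', hy, hL]
    exact mul_le_mul_of_nonneg_right (Real.log_le_log (by norm_num) hq') hη.le
  obtain ⟨κ, hκ⟩ : ∃ κ : ℕ, κ = ⌈2 * b / y0 ^ 2⌉₊ + ⌈8 / η⌉₊ * a + 2 * B + 1 := ⟨_, rfl⟩
  have hκR : (κ : ℝ) = (⌈2 * b / y0 ^ 2⌉₊ : ℝ) + (⌈8 / η⌉₊ : ℝ) * a + 2 * B + 1 := by
    rw [hκ]; push_cast; ring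
  have hB0' : (0 : ℝ) ≤ B := Nat.cast_nonneg B
  have hc1 : 2 * b / y ^ 2 ≤ (⌈2 * b / y0 ^ 2⌉₊ : ℝ) :=
    le_trans (div_le_div_of_nonneg_left (by positivity) (by positivity)
      (pow_le_pow_left₀ hy00.le hyy 2)) (Nat.le_ceil _)
  have hc2 : 8 * (a : ℝ) / η ≤ (⌈8 / η⌉₊ : ℝ) * a := by
    have h1 : 8 / η ≤ (⌈8 / η⌉₊ : ℝ) := Nat.le_ceil _
    calc 8 * (a : ℝ) / η = 8 / η * a := by ring
      _ ≤ _ := mul_le_mul_of_nonneg_right h1 (Nat.cast_nonneg _)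
  have hc3 : (0 : ℝ) ≤ (⌈2 * b / y0 ^ 2⌉₊ : ℝ) := Nat.cast_nonneg _
  have hc4 : (0 : ℝ) ≤ (⌈8 / η⌉₊ : ℝ) * a := by positivity
  have hν : 6 * κ ≤ 6 * (⌈2 * b / y0 ^ 2⌉₊ + ⌈8 / η⌉₊ + 2 * B + 1) * (a + 1) := by
    rw [hκ]
    nlinarith [Nat.zero_le (⌈2 * b / y0 ^ 2⌉₊ * a), Nat.zero_le (⌈8 / η⌉₊), Nat.zero_le a,
      Nat.zero_le (B * a)]
  have hκy : 2 * b / y ≤ y * κ := by
    have h1 : 2 * b / y ^ 2 ≤ κ := by rw [hκR]; linarith
    have h2 := mul_le_mul_of_nonneg_left h1 hy0.le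
    have h3 : y * (2 * b / y ^ 2) = 2 * b / y := by field_simp
    rwa [h3] at h2
  have hκa : 8 * (a : ℝ) ≤ η * κ := by
    have h1 : 8 * (a : ℝ) / η ≤ κ := by rw [hκR]; linarith
    have h2 := mul_le_mul_of_nonneg_left h1 hη.le
    have h3 : η * (8 * (a : ℝ) / η) = 8 * a := by field_simp
    rwa [h3] at h2
  refine ⟨κ, by omega, hκa, ?_⟩
  intro H M hH
  obtain ⟨kb, hkb⟩ : ∃ kb : ℕ, kb = M + 1 + ⌈(2 * b * (H + 1) / y + 6 + H) / y⌉₊ := ⟨_, rfl⟩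
  have hkb1 : 2 * b * (H + 1) / y + 6 + H ≤ y * kb := by
    have h1 : (2 * b * (H + 1) / y + 6 + H) / y ≤ (⌈(2 * b * (H + 1) / y + 6 + H) / y⌉₊ : ℝ) :=
      Nat.le_ceil _
    have h2 : (2 * b * (H + 1) / y + 6 + H) / y ≤ kb := by
      rw [hkb]
      push_cast
      have : (0 : ℝ) ≤ (M : ℝ) := Nat.cast_nonneg _
      linarith
    rw [div_le_iff₀ hy0] at h2
    linarith
  have hHy : 0 ≤ 2 * b * (H + 1) / y := by positivity
  refine ⟨kb, 6 * kb, by omega, ⟨by omega, ?_, by omega, ?_⟩⟩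
  · rw [hrp]
    have h1 : L * (η * kb) = y * kb := by rw [hy]; ring
    rw [h1]
    have h2 := Real.add_one_le_exp (y * kb)
    linarith
  · intro c N hN
    have hN'' : 6 * κ * (c + 1) + 6 * kb ≤ N :=
      le_trans (Nat.add_le_add_right (Nat.mul_le_mul_right _ hν) _) hN
    have hN' : 6 * (κ : ℝ) * (c + 1) + 6 * kb ≤ N := by exact_mod_cast hN''
    have hc0 : (0 : ℝ) ≤ c := Nat.cast_nonneg c
    obtain ⟨k, hk⟩ : ∃ k : ℕ, k = κ * (c + 1) + kb := ⟨_, rfl⟩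
    have hkR : (k : ℝ) = κ * (c + 1) + kb := by rw [hk]; push_cast; ring
    have hk0 : (0 : ℝ) ≤ k := Nat.cast_nonneg _
    have hNk : 6 * (k : ℝ) ≤ N := by
      rw [hkR]
      linarith
    rw [← hk, ← hb]
    constructor
    · exact_mod_cast hNk
    · have hsum : ∑ j ∈ Finset.Ico 1 k, (b * ((c : ℝ) + H + 1)) * (q : ℝ) ^ ((1 / 2 + 2 * η) * j) *
          ((q : ℝ) ^ (-(1 / 2 + 3 * η))) ^ j ≤ (b * ((c : ℝ) + H + 1)) * (1 / y) := by
        have h0 : ∑ j ∈ Finset.Ico 1 k, (b * ((c : ℝ) + H + 1)) * (q : ℝ) ^ ((1 / 2 + 2 * η) * j) *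
          ((q : ℝ) ^ (-(1 / 2 + 3 * η))) ^ j =
            (b * ((c : ℝ) + H + 1)) * ∑ j ∈ Finset.Ico 1 k, Real.exp (-y) ^ j := by
          rw [Finset.mul_sum]
          refine Finset.sum_congr rfl fun j _ => ?_
          have h1 : (q : ℝ) ^ ((1 / 2 + 2 * η) * j) * ((q : ℝ) ^ (-(1 / 2 + 3 * η))) ^ j =
              Real.exp (-y) ^ j := by
            rw [hrp, hrp, ← Real.exp_nat_mul, ← Real.exp_nat_mul, ← Real.exp_add, hy]
            congr 1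
            ring
          rw [mul_assoc, h1]
        rw [h0]
        exact mul_le_mul_of_nonneg_left (par_geom k y hy0) (by positivity)
      have hexp : Real.exp (2 * ∑ j ∈ Finset.Ico 1 k, (b * ((c : ℝ) + H + 1)) *
          (q : ℝ) ^ ((1 / 2 + 2 * η) * j) * ((q : ℝ) ^ (-(1 / 2 + 3 * η))) ^ j) ≤
          Real.exp (2 * ((b * ((c : ℝ) + H + 1)) * (1 / y))) := by
        apply Real.exp_le_exp.2
        linarith
      have hA : ((q : ℝ) ^ (-(1 / 2 + 4 * η)) / (q : ℝ) ^ (-(1 / 2 + 3 * η))) ^ k =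
          Real.exp (-(y * k)) := by
        rw [hrp, hrp, ← Real.exp_sub, ← Real.exp_nat_mul, hy]
        congr 1
        ring
      have hB : (q : ℝ) ^ (-(4 * η) * N + 2 * (4 * η) * (k : ℕ)) ≤ Real.exp (-(y * k)) := by
        rw [hrp]
        apply Real.exp_le_exp.2
        have h1 : -(4 * η) * N + 2 * (4 * η) * (k : ℕ) ≤ -(η * k) := by nlinarith
        have h2 := mul_le_mul_of_nonneg_left h1 hL0.le
        rw [hy]
        linarith
      have hC : (q : ℝ) ^ (-(η / 3 * N)) ≤ Real.exp (-(y * k)) := by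
        rw [hrp]
        apply Real.exp_le_exp.2
        have h1 : -(η / 3 * N) ≤ -(η * k) := by nlinarith
        have h2 := mul_le_mul_of_nonneg_left h1 hL0.le
        rw [hy]
        linarith
      have hmain : 2 * ((b * ((c : ℝ) + H + 1)) * (1 / y)) + -(y * k) ≤ -6 := by
        have h1 : 2 * ((b * ((c : ℝ) + H + 1)) * (1 / y)) =
            2 * b / y * c + 2 * b * (H + 1) / y := by field_simp; ring
        have h2 : 2 * b / y * c ≤ y * κ * c := mul_le_mul_of_nonneg_right hκy hc0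
        have h3 : 0 ≤ y * κ := by positivity
        rw [h1, hkR]
        nlinarith
      have h1 : Real.exp (2 * ((b * ((c : ℝ) + H + 1)) * (1 / y))) * Real.exp (-(y * k)) ≤
          1 / 192 := by
        rw [← Real.exp_add]
        exact le_trans (Real.exp_le_exp.2 hmain) exp_neg_six
      rw [hA]
      have hB0 : 0 ≤ (q : ℝ) ^ (-(4 * η) * N + 2 * (4 * η) * (k : ℕ)) := by positivity
      have hC0 : 0 ≤ (q : ℝ) ^ (-(η / 3 * N)) := by positivity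
      have hA0 : 0 ≤ Real.exp (-(y * k)) := (Real.exp_pos _).le
      calc _ ≤ Real.exp (2 * ((b * ((c : ℝ) + H + 1)) * (1 / y))) * (Real.exp (-(y * k)) +
            Real.exp (-(y * k)) + Real.exp (-(y * k))) := by
            refine mul_le_mul hexp (by linarith) (by positivity) (Real.exp_pos _).le
        _ ≤ 1 / 64 := by
            rw [mul_add, mul_add]
            linarith

end Pool.Agent.H497.TV
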