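import Pool.Agent.H497.TT.Solver
import Pool.Agent.H497.TV.Defs

set_option autoImplicit false

namespace Pool.Agent.H497.TV

open MeasureTheory Pool.Agent.H497.TT Pool.Agent.H497.TU

theorem solverV {𝓟 𝓧 : Type} (S : TSys 𝓟 𝓧) {G ι : Type} [MeasurableSpace G] (μ : Measure G)
    [IsProbabilityMeasure μ] [Fintype ι] [DecidableEq ι] {s : ℕ} {f : ι → G → ℝ} (Fm : Fam μ ι s f) (σ τ η : ℝ)
    (hσ : 1 / 2 ≤ σ) (hτ : 1 / 2 ≤ τ) (hστ : 2 * σ - 1 + 9 * η ≤ τ) (hη : 0 < η) (hη2 : σ + 16 * η ≤ 1) (κ : ℕ) (hκ : 1 ≤ κ) (hκη : 8 * (S.a : ℝ) ≤ η * κ) :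
    ∃ K0 : ℕ, ∀ K, K0 ≤ K → ∀ b : ι → 𝓧 → ℂ,
      (∀ α, ∀ χ ∈ S.X κ K, ‖b α χ‖ ≤ (S.q : ℝ) ^ ((σ + 5 * η) * K)) →
      (∀ α, ∀ χ ∈ S.X κ K, b α (S.bar χ) = starRingEnd ℂ (b α χ)) →
      ∃ g : 𝓟 → G, (∀ α, ∀ χ ∈ S.X κ K, ∑ P ∈ S.Pr K, (f α (g P) : ℂ) * S.lam χ P 1 = b α χ) ∧
        ∀ α χ, χ ∉ S.X κ K → ‖∑ P ∈ S.Pr K, (f α (g P) : ℂ) * S.lam χ P 1‖ ≤
          1 / 2 * (((S.c χ : ℝ) + 2) * (S.q : ℝ) ^ ((τ + 2 * η) * K)) := by
  classical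
  have hq := S.hq
  have hA : (1 : ℝ) ≤ S.A := by exact_mod_cast S.hA
  have hB := Fm.B1
  have hB0 : 0 ≤ Fm.B := by linarith
  have hR0 : (0 : ℝ) ≤ S.R := by positivity
  have hm0 : (0 : ℝ) ≤ (Fintype.card ι : ℝ) := by positivity
  obtain ⟨K1, hK1⟩ := rand_base S μ (tst Fm) (tst_meas Fm) (s * Fm.B ^ 2 + 1 + Fm.B) (by positivity)
    (tst_le Fm) (tst_int Fm) η hη
  obtain ⟨k1, a1⟩ := asym S.q hq (2 * S.A) (1 / 2) 1 2 (by norm_num)
  obtain ⟨k2, a2⟩ := asym S.q hq 1 (1 / 2 + η) (σ + 5 * η) 1 (by linarith)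
  obtain ⟨k3, a3⟩ := asym S.q hq (8 * Fintype.card ι * S.A * Fm.B * S.R) (η / 8 + (σ - 1 + 5 * η)) 0 1
    (by linarith)
  obtain ⟨k4, a4⟩ := asym S.q hq (32 * S.A ^ 2 * Fintype.card ι) (1 / 2 + η + η / 8) 1 2 (by linarith)
  obtain ⟨k5, a5⟩ := asym S.q hq (64 * (1 + S.A) * S.R * Fm.B * (Fintype.card ι * S.A * Fm.B * S.R) ^ 2)
    (1 + ((η / 8 + η / 8) + (σ - 1 + 5 * η))) 1 2 (by linarith)
  obtain ⟨k6, a6⟩ := asym S.q hq 6 (1 / 2 + η) (τ + 2 * η) 0 (by linarith)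
  obtain ⟨k7, a7⟩ := asym S.q hq (96 * Fintype.card ι * S.A ^ 2) (η / 8 + (σ - 1 + 5 * η) + (1 / 2 + η))
    (τ + 2 * η) 2 (by linarith)
  obtain ⟨k8, a8⟩ := asym S.q hq (6 * (1 + S.A) * S.R * Fm.B * (8 * Fintype.card ι * S.A * Fm.B * S.R) ^ 2)
    (1 + ((η / 8 + (σ - 1 + 5 * η)) + (η / 8 + (σ - 1 + 5 * η)))) (τ + 2 * η) 2 (by linarith)
  refine ⟨K1 + k1 + k2 + k3 + k4 + k5 + k6 + k7 + k8 + 1, fun K hK b hb hbs => ?_⟩
  replace a1 := a1 K (by omega)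
  replace a2 := a2 K (by omega)
  replace a3 := a3 K (by omega)
  replace a4 := a4 K (by omega)
  replace a5 := a5 K (by omega)
  replace a6 := a6 K (by omega)
  replace a7 := a7 K (by omega)
  replace a8 := a8 K (by omega)
  obtain ⟨g0, hg1, hg2⟩ := hK1 K (by omega)
  have hK1' : (1 : ℝ) ≤ K := by exact_mod_cast (by omega : 1 ≤ K)
  have hK0 : (0 : ℝ) < K := by linarith
  have hKne : K ≠ 0 := by omega
  -- the exponentials
  obtain ⟨e8, he8⟩ : ∃ x, x = E S.q K (η / 8) := ⟨_, rfl⟩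
  obtain ⟨e5, he5⟩ : ∃ x, x = E S.q K (σ - 1 + 5 * η) := ⟨_, rfl⟩
  obtain ⟨eη, heη⟩ : ∃ x, x = E S.q K (1 / 2 + η) := ⟨_, rfl⟩
  obtain ⟨e1, he1⟩ : ∃ x, x = E S.q K 1 := ⟨_, rfl⟩
  obtain ⟨eh, heh⟩ : ∃ x, x = E S.q K (1 / 2) := ⟨_, rfl⟩
  obtain ⟨T, hT⟩ : ∃ x, x = E S.q K (τ + 2 * η) := ⟨_, rfl⟩
  obtain ⟨e6, he6⟩ : ∃ x, x = E S.q K (σ + 5 * η) := ⟨_, rfl⟩
  have p8 : 0 < e8 := he8 ▸ E_pos hq K _
  have p5 : 0 < e5 := he5 ▸ E_pos hq K _
  have pη : 0 < eη := heη ▸ E_pos hq K _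
  have p1 : 0 < e1 := he1 ▸ E_pos hq K _
  have ph : 0 < eh := heh ▸ E_pos hq K _
  have p6 : 0 < e6 := he6 ▸ E_pos hq K _
  have f65 : e1 * e5 = e6 := by
    rw [he1, he5, he6, ← E_add hq]
    congr 1
    ring
  have fhη : eh ≤ eη := by
    rw [heh, heη]
    exact E_mono hq K (by linarith)
  have b1 : 2 * S.A * (K + 1) ^ 2 * eh ≤ e1 := by
    rw [heh, he1]
    exact a1
  have b2 : (K + 1) * eη ≤ e6 := by
    rw [heη, he6]
    have h := a2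
    rw [one_mul, pow_one] at h
    exact h
  have b3 : 8 * Fintype.card ι * S.A * Fm.B * S.R * (K + 1) * (e8 * e5) ≤ 1 := by
    rw [he8, he5, ← E_add hq]
    have h := a3
    rw [pow_one, zero_mul, Real.rpow_zero] at h
    exact h
  have b4 : 32 * S.A ^ 2 * Fintype.card ι * (K + 1) ^ 2 * (eη * e8) ≤ e1 := by
    rw [he8, heη, he1, ← E_add hq]
    exact a4
  have b5 : 64 * (1 + S.A) * S.R * Fm.B * (Fintype.card ι * S.A * Fm.B * S.R) ^ 2 * (K + 1) ^ 2 *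
      (e1 * ((e8 * e8) * e5)) ≤ e1 := by
    rw [he8, he5, he1, ← E_add hq, ← E_add hq, ← E_add hq]
    exact a5
  have b6 : 6 * eη ≤ T := by
    rw [heη, hT]
    have h := a6
    rw [pow_zero, mul_one] at h
    exact h
  have b7 : 96 * Fintype.card ι * S.A ^ 2 * (K + 1) ^ 2 * (e8 * e5 * eη) ≤ T := by
    rw [he8, he5, heη, hT, ← E_add hq, ← E_add hq]
    exact a7
  have b8 : 6 * (1 + S.A) * S.R * Fm.B * (8 * Fintype.card ι * S.A * Fm.B * S.R) ^ 2 * (K + 1) ^ 2 *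
      (e1 * (e8 * e5) ^ 2) ≤ T := by
    rw [sq (e8 * e5), he8, he5, he1, hT, ← E_add hq, ← E_add hq, ← E_add hq]
    exact a8
  have gη : (S.q : ℝ) ^ ((1 / 2 + η) * K) = eη := heη.symm
  have g6 : (S.q : ℝ) ^ ((σ + 5 * η) * K) = e6 := he6.symm
  have gT : (S.q : ℝ) ^ ((τ + 2 * η) * K) = T := hT.symm
  have gh : √(S.q : ℝ) ^ K = eh := by
    rw [sqrt_pow, heh]
    rfl
  have g1 : (S.q : ℝ) ^ K = e1 := by rw [he1, E_one]
  rw [gη] at hg1 hg2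
  rw [gT]
  rw [g6] at hb
  -- the number of the places
  have hPr := S.Pr_card K hKne
  rw [gh, g1, abs_le] at hPr
  have hcQ : ((S.Pr K).card : ℝ) ≤ (1 + S.A) * e1 := by
    have h1 : eh ≤ e1 := by
      rw [heh, he1]
      exact E_mono hq K (by norm_num)
    have hc0 : (0 : ℝ) ≤ ((S.Pr K).card : ℝ) := Nat.cast_nonneg _
    have h2 : (K : ℝ) * (S.Pr K).card ≤ e1 + S.A * eh := by linarith [hPr.2]
    have h3 : (S.A : ℝ) * eh ≤ S.A * e1 := mul_le_mul_of_nonneg_left h1 (by linarith)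
    exact aux1 hK1' hc0 h2 h3
  -- the twists
  have hX : ∀ χ ∈ S.X κ K, (S.c χ : ℝ) + 1 ≤ K ∧ S.per χ ∣ K := by
    intro χ hχ
    obtain ⟨h1, h2⟩ := (TSys.mem_X hκ).1 hχ
    refine ⟨?_, h2⟩
    have h3 : S.c χ + 1 ≤ K := le_trans (Nat.le_mul_of_pos_left _ (by omega)) h1
    exact_mod_cast h3
  have hXb : ∀ χ ∈ S.X κ K, S.bar χ ∈ S.X κ K := by
    intro χ hχ
    rw [TSys.mem_X hκ, S.bar_c, S.bar_per]
    exact (TSys.mem_X hκ).1 hχ
  have hJ := X_card S η hη κ hκ hκη K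
  have g8 : (S.q : ℝ) ^ (η / 8 * K) = e8 := he8.symm
  rw [g8] at hJ
  obtain ⟨cJ, hcJ⟩ : ∃ x : ℝ, x = (Fintype.card {χ : 𝓧 // χ ∈ S.X κ K} : ℝ) := ⟨_, rfl⟩
  have hcJ' : cJ ≤ S.A * e8 := by
    rw [hcJ, Fintype.card_coe]
    exact hJ
  have hcJ0 : 0 ≤ cJ := by rw [hcJ]; positivity
  -- constants
  obtain ⟨ρ, hρ⟩ : ∃ x : ℝ, x = 8 * K * e5 := ⟨_, rfl⟩
  have hρ0 : 0 < ρ := by rw [hρ]; positivity
  have hD0 : 0 < e1 / (2 * K) := by positivity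
  have hDρ : e1 / (2 * K) * ρ / 2 = 2 * e6 := by
    rw [hρ, ← f65]
    field_simp
    ring
  have hc1ρ : (Fintype.card ι : ℝ) * cJ * Fm.B * S.R * ρ ≤ 1 := by
    calc (Fintype.card ι : ℝ) * cJ * Fm.B * S.R * ρ ≤ (Fintype.card ι : ℝ) * (S.A * e8) * Fm.B * S.R * ρ := by
          refine mul_le_mul_of_nonneg_right ?_ hρ0.le
          refine mul_le_mul_of_nonneg_right ?_ hR0
          refine mul_le_mul_of_nonneg_right ?_ hB0
          exact mul_le_mul_of_nonneg_left hcJ' hm0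
      _ = 8 * Fintype.card ι * S.A * Fm.B * S.R * K * (e8 * e5) := by rw [hρ]; ring
      _ ≤ 8 * Fintype.card ι * S.A * Fm.B * S.R * (K + 1) * (e8 * e5) := by
          refine mul_le_mul_of_nonneg_right ?_ (by positivity)
          exact mul_le_mul_of_nonneg_left (by linarith) (by positivity)
      _ ≤ 1 := b3
  have huη : 0 ≤ S.A * (2 * K + 2) * eη := by positivity
  obtain ⟨x, t, hx, ht, htn, hsol⟩ := coreSolve μ Fm (S.Pr K) g0
    (fun (j : {χ : 𝓧 // χ ∈ S.X κ K}) P => S.lam j.1 P 1)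
    (fun j => ⟨S.bar j.1, hXb j.1 j.2⟩)
    (fun j => Subtype.ext (S.bar_bar j.1))
    (fun j P => lam_bar S j.1 P)
    S.R (e1 / (2 * K)) (S.A * (2 * K + 2) * eη) ρ (Fintype.card ι * cJ * Fm.B * S.R) hR0
    (fun j P => lam_le_one S j.1 P) hD0 huη hρ0.le
    (by
      intro j
      obtain ⟨h1, h2⟩ := hX j.1 j.2
      have h3 := S.norm j.1 K hKne h2
      rw [gh] at h3
      have e : ∑ P ∈ S.Pr K, ‖S.lam j.1 P 1‖ ^ 2 = ∑ P ∈ S.Pr K, ‖∑ i, S.par j.1 P i‖ ^ 2 :=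
        Finset.sum_congr rfl (fun P _ => by rw [lam_one])
      show e1 / (2 * K) ≤ ∑ P ∈ S.Pr K, ‖S.lam j.1 P 1‖ ^ 2
      rw [e]
      obtain ⟨Y, hY⟩ : ∃ Y, Y = ∑ P ∈ S.Pr K, ‖∑ i, S.par j.1 P i‖ ^ 2 := ⟨_, rfl⟩
      rw [← hY] at h3 ⊢
      rw [div_le_iff₀ (by linarith)]
      have h4 : (S.A : ℝ) * ((S.c j.1 : ℝ) + 1) * eh ≤ S.A * K * eh :=
        mul_le_mul_of_nonneg_right (mul_le_mul_of_nonneg_left h1 (by linarith)) ph.le
      have h5 : ((S.Pr K).card : ℝ) ≤ Y + S.A * K * eh := h3.trans (by linarith)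
      exact aux2 hK1' ph.le hA h5 hPr.1 b1)
    (by
      intro j j' hne
      obtain ⟨h1, h2⟩ := hX j.1 j.2
      obtain ⟨h1', h2'⟩ := hX j'.1 j'.2
      have hne' : j.1 ≠ j'.1 := fun h => hne (Subtype.ext h)
      have h3 := S.orth j.1 j'.1 hne' K hKne
      rw [gh] at h3
      have e : ∑ P ∈ S.Pr K, S.lam j.1 P 1 * starRingEnd ℂ (S.lam j'.1 P 1) =
          ∑ P ∈ S.Pr K, (∑ i, S.par j.1 P i) * starRingEnd ℂ (∑ i, S.par j'.1 P i) :=
        Finset.sum_congr rfl (fun P _ => by rw [lam_one, lam_one])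
      show ‖∑ P ∈ S.Pr K, S.lam j.1 P 1 * starRingEnd ℂ (S.lam j'.1 P 1)‖ ≤ _
      rw [e]
      refine h3.trans ?_
      refine mul_le_mul ?_ fhη ph.le (by positivity)
      exact mul_le_mul_of_nonneg_left (by linarith) (by linarith))
    (by
      intro α α' j j'
      obtain ⟨h1, h2⟩ := hX j.1 j.2
      obtain ⟨h1', h2'⟩ := hX j'.1 j'.2
      have h3 := hg2 (Sum.inr (α, α')) j.1 j'.1
      refine h3.trans ?_
      refine mul_le_mul_of_nonneg_right ?_ pη.le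
      have h4 : (S.c j.1 : ℝ) + S.c j'.1 + 2 ≤ 2 * K + 2 := by linarith
      have h5 : (2 * (K : ℝ) + 2) ≤ S.A * (2 * K + 2) := le_mul_of_one_le_left (by linarith) hA
      linarith)
    (fun α j => b α j.1)
    (fun α j => hbs α j.1 j.2)
    (by
      intro α j
      obtain ⟨h1, h2⟩ := hX j.1 j.2
      have h3 := hg1 (Sum.inl α) j.1
      have h4 := hb α j.1 j.2
      rw [hDρ]
      refine (norm_sub_le _ _).trans ?_
      have h5 : ((S.c j.1 : ℝ) + 2) * eη ≤ (K + 1) * eη := mul_le_mul_of_nonneg_right (by linarith) pη.le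
      have h6 : ‖∑ P ∈ S.Pr K, (f α (g0 P) : ℂ) * S.lam j.1 P 1‖ ≤ ((S.c j.1 : ℝ) + 2) * eη := h3
      show ‖∑ P ∈ S.Pr K, (f α (g0 P) : ℂ) * S.lam j.1 P 1‖ + ‖b α j.1‖ ≤ 2 * e6
      linarith)
    (by rw [← hcJ]) hc1ρ
    (by
      rw [← hcJ]
      have h1 : 2 * (S.A * (2 * K + 2) * eη) * ((Fintype.card ι : ℝ) * cJ) ≤
          2 * (S.A * (2 * K + 2) * eη) * ((Fintype.card ι : ℝ) * (S.A * e8)) :=
        mul_le_mul_of_nonneg_left (mul_le_mul_of_nonneg_left hcJ' hm0) (by positivity)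
      refine h1.trans ?_
      rw [div_div, le_div_iff₀ (by positivity)]
      calc 2 * (S.A * (2 * K + 2) * eη) * ((Fintype.card ι : ℝ) * (S.A * e8)) * (2 * K * 4)
          = 32 * S.A ^ 2 * Fintype.card ι * ((K + 1) * K) * (eη * e8) := by ring
        _ ≤ 32 * S.A ^ 2 * Fintype.card ι * (K + 1) ^ 2 * (eη * e8) := by
            refine mul_le_mul_of_nonneg_right ?_ (by positivity)
            refine mul_le_mul_of_nonneg_left ?_ (by positivity)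
            exact aux3 hK0.le
        _ ≤ e1 := b4)
    (by
      have hc1 : (Fintype.card ι : ℝ) * cJ * Fm.B * S.R ≤ (Fintype.card ι * S.A * Fm.B * S.R) * e8 := by
        calc (Fintype.card ι : ℝ) * cJ * Fm.B * S.R ≤ (Fintype.card ι : ℝ) * (S.A * e8) * Fm.B * S.R := by
              refine mul_le_mul_of_nonneg_right ?_ hR0
              refine mul_le_mul_of_nonneg_right ?_ hB0
              exact mul_le_mul_of_nonneg_left hcJ' hm0
          _ = (Fintype.card ι * S.A * Fm.B * S.R) * e8 := by ring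
      have hc10 : 0 ≤ (Fintype.card ι : ℝ) * cJ * Fm.B * S.R := by positivity
      rw [div_div, le_div_iff₀ (by positivity)]
      calc ((S.Pr K).card : ℝ) * S.R * Fm.B * ((Fintype.card ι : ℝ) * cJ * Fm.B * S.R) ^ 2 * ρ * (2 * K * 4)
          ≤ ((1 + S.A) * e1) * S.R * Fm.B * ((Fintype.card ι * S.A * Fm.B * S.R) * e8) ^ 2 * ρ * (2 * K * 4) := by
            refine mul_le_mul_of_nonneg_right ?_ (by positivity)
            refine mul_le_mul_of_nonneg_right ?_ hρ0.le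
            refine mul_le_mul ?_ (pow_le_pow_left₀ hc10 hc1 2) (by positivity) (by positivity)
            refine mul_le_mul_of_nonneg_right ?_ hB0
            exact mul_le_mul_of_nonneg_right hcQ hR0
        _ = 64 * (1 + S.A) * S.R * Fm.B * (Fintype.card ι * S.A * Fm.B * S.R) ^ 2 * (K * K) *
            (e1 * ((e8 * e8) * e5)) := by rw [hρ]; ring
        _ ≤ 64 * (1 + S.A) * S.R * Fm.B * (Fintype.card ι * S.A * Fm.B * S.R) ^ 2 * (K + 1) ^ 2 *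
            (e1 * ((e8 * e8) * e5)) := by
            refine mul_le_mul_of_nonneg_right ?_ (by positivity)
            refine mul_le_mul_of_nonneg_left ?_ (by positivity)
            exact aux4 hK0.le
        _ ≤ e1 := b5)
  refine ⟨fun P => Fm.cp (g0 P) (t P), ?_, ?_⟩
  · intro α χ hχ
    exact hsol α ⟨χ, hχ⟩
  · intro α χ hχ
    have hcχ : (0 : ℝ) ≤ S.c χ := by positivity
    have hout := outside μ Fm (S.Pr K) g0 (fun (j : {χ : 𝓧 // χ ∈ S.X κ K}) P => S.lam j.1 P 1)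
      (fun P => S.lam χ P 1) S.R ρ (Fintype.card ι * cJ * Fm.B * S.R * ρ) (S.A * (S.c χ + K + 2) * eη)
      ((S.c χ + 2) * eη) hR0 (fun P => lam_le_one S χ P) hρ0.le (by positivity) x t hx ht htn hc1ρ
      (by
        intro j
        obtain ⟨h1, h2⟩ := hX j.1 j.2
        have hne' : χ ≠ j.1 := fun h => hχ (h ▸ j.2)
        have h3 := S.orth χ j.1 hne' K hKne
        rw [gh] at h3
        have e : ∑ P ∈ S.Pr K, S.lam χ P 1 * starRingEnd ℂ (S.lam j.1 P 1) =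
            ∑ P ∈ S.Pr K, (∑ i, S.par χ P i) * starRingEnd ℂ (∑ i, S.par j.1 P i) :=
          Finset.sum_congr rfl (fun P _ => by rw [lam_one, lam_one])
        show ‖∑ P ∈ S.Pr K, S.lam χ P 1 * starRingEnd ℂ (S.lam j.1 P 1)‖ ≤ _
        rw [e]
        refine h3.trans ?_
        refine mul_le_mul ?_ fhη ph.le (by positivity)
        exact mul_le_mul_of_nonneg_left (by linarith) (by linarith))
      (by
        intro α α' j
        obtain ⟨h1, h2⟩ := hX j.1 j.2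
        have h3 := hg2 (Sum.inr (α, α')) χ j.1
        refine h3.trans ?_
        refine mul_le_mul_of_nonneg_right ?_ pη.le
        have h4 : (S.c χ : ℝ) + S.c j.1 + 2 ≤ S.c χ + K + 2 := by linarith
        have h5 : ((S.c χ : ℝ) + K + 2) ≤ S.A * (S.c χ + K + 2) := le_mul_of_one_le_left (by linarith) hA
        linarith)
      (fun α => hg1 (Sum.inl α) χ) α
    rw [← hcJ] at hout
    exact last hcχ hm0 hcJ0 hcJ' hA hK1' p8 p5 pη hR0 hB0 hρ rfl rfl rfl p1 (by positivity) hcQ b6 b7 b8 hout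


end Pool.Agent.H497.TV
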