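import Pool.Agent.H497.TV.Alg2

set_option autoImplicit false

namespace Pool.Agent.H497.TV

open MeasureTheory Pool.Agent.H497.TT Pool.Agent.H497.TU

variable {𝓟 𝓧 G : Type}

noncomputable section

/-- `p ⌊N/(2p)⌋` -/
def jj (p N : ℕ) : ℕ := p * (N / (2 * p))

theorem jj_spec {p N : ℕ} (hp : 1 ≤ p) (hpN : p ∣ N) (h2 : 2 * p ≤ N) :
    p ∣ jj p N ∧ 2 * jj p N ≤ N ∧ N ≤ 3 * jj p N := by
  obtain ⟨m, rfl⟩ := hpN
  have hm : 2 ≤ m := by nlinarith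
  have e : p * m / (2 * p) = m / 2 := by
    rw [mul_comm 2 p]
    exact Nat.mul_div_mul_left m 2 (by omega)
  unfold jj
  rw [e]
  refine ⟨dvd_mul_right _ _, ?_, ?_⟩
  · calc 2 * (p * (m / 2)) = p * (2 * (m / 2)) := by ring
      _ ≤ p * m := Nat.mul_le_mul_left _ (by omega)
  · calc p * m ≤ p * (3 * (m / 2)) := Nat.mul_le_mul_left _ (by omega)
      _ = 3 * (p * (m / 2)) := by ring

/-- the target: the power sums of `Z M`, with `z` those of `Z`, and `M` a polynomial with functional equation and value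
`v` at `q^(-1/2)` -/
def niceV (S : TSys 𝓟 𝓧) (κ : ℕ) (kb : ℕ → ℕ) (N : ℕ → 𝓧 → ℕ) (W v : ℕ → 𝓧 → ℂ) (z : ℕ → 𝓧 → ℕ → ℂ) (i : ℕ) (χ : 𝓧)
    (T : ℕ → ℂ) (k : ℕ) : ℂ :=
  z i χ k + FF.ldc (VV S.q (fun j => T j - z i χ j) (κ * (S.c χ + 1) + kb i) (N i χ) (W i χ) (v i χ)
    (jj (S.per χ) (N i χ))) k

end

/-- `niceV` is an admissible target -/
theorem niceV_tgt0 {S : TSys 𝓟 𝓧} (D : RD G) {η : ℝ} {κ : ℕ} {kb : ℕ → ℕ}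
    {N : ℕ → 𝓧 → ℕ} {W v : ℕ → 𝓧 → ℂ} {z : ℕ → 𝓧 → ℕ → ℂ} {H : ℕ → ℝ}
    (hNp : ∀ i χ, S.per χ ∣ N i χ ∧ 2 * S.per χ ≤ N i χ)
    (hzp : ∀ i χ k, ¬ S.per χ ∣ k → z i χ k = 0)
    (hsd : ∀ i, D.sd i → ∀ χ, N i (S.bar χ) = N i χ ∧ W i (S.bar χ) = starRingEnd ℂ (W i χ) ∧
      v i (S.bar χ) = starRingEnd ℂ (v i χ) ∧ ∀ k, z i (S.bar χ) k = starRingEnd ℂ (z i χ k))
    (hbound : ∀ (i : ℕ) (χ : 𝓧) (T : ℕ → ℂ), (∀ j, 1 ≤ j → j < κ * (S.c χ + 1) + kb i →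
      ‖T j‖ ≤ j * (((S.c χ : ℝ) + H i) * (S.q : ℝ) ^ ((1 / 2 + 2 * η) * j))) →
      ∀ k, κ * (S.c χ + 1) + kb i ≤ k → ‖niceV S κ kb N W v z i χ T k‖ ≤ k * (S.q : ℝ) ^ ((1 / 2 + 4 * η) * k)) :
    TgtV S D (1 / 2) (1 / 2) η κ kb H (niceV S κ kb N W v z) := by
  refine ⟨?_, hbound, ?_, ?_⟩
  · intro i χ T T' k h
    unfold niceV
    rw [VV_congr (g := fun j => T j - z i χ j) (g' := fun j => T' j - z i χ j) fun j h1 h2 => by rw [h j h1 h2]]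
  · intro i hi χ T T' h k
    obtain ⟨h1, h2, h3, h4⟩ := hsd i hi χ
    unfold niceV
    rw [S.bar_c, S.bar_per, h1, h2, h3, h4, map_add]
    congr 1
    refine VV_ldc_conj (fun j hj1 hj2 => ?_) k
    rw [h j hj1 hj2, h4, map_sub]
  · intro i χ T hT k hk
    obtain ⟨h1, h2⟩ := hNp i χ
    obtain ⟨h3, h4, h5⟩ := jj_spec (S.per_pos χ) h1 h2
    unfold niceV
    rw [hzp i χ k hk, zero_add]
    refine VV_ldc_per (fun j hj => ?_) h1 h3 h4 k hk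
    rw [hT j hj, hzp i χ j hj, sub_zero]

end Pool.Agent.H497.TV
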