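import Pool.Agent.H497.FF.C2
import Pool.Agent.H497.FF.C2b

set_option autoImplicit false

namespace Pool.Agent.H497.TV

open Polynomial Pool.Agent.H497.FF

theorem rec_of_Dd {A : PowerSeries ℂ} {g : ℕ → ℂ} (h : Dd A = GS g * A) (k : ℕ) :
    (k : ℂ) * PowerSeries.coeff k A = ∑ j ∈ Finset.range k, g (j + 1) * PowerSeries.coeff (k - 1 - j) A := by
  have h1 := congrArg (PowerSeries.coeff k) h
  rw [coeff_Dd, PowerSeries.coeff_mul, Finset.Nat.sum_antidiagonal_eq_sum_range_succ_mk,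
    Finset.sum_range_succ'] at h1
  simp only [GS, PowerSeries.coeff_mk, Nat.succ_ne_zero, if_false, if_true, zero_mul, add_zero] at h1
  rw [h1]
  refine Finset.sum_congr rfl fun j _ => ?_
  rw [show k - (j + 1) = k - 1 - j by omega]

theorem ldc_unique {a g : ℕ → ℂ} (h0 : a 0 = 1)
    (h : ∀ k : ℕ, (k : ℂ) * a k = ∑ j ∈ Finset.range k, g (j + 1) * a (k - 1 - j)) (k : ℕ) (hk : k ≠ 0) :
    ldc a k = g k := by
  induction k using Nat.strong_induction_on with
  | _ k ih =>
    obtain ⟨m, rfl⟩ : ∃ m, k = m + 1 := ⟨k - 1, by omega⟩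
    have h1 := ldc_rec a h0 (m + 1)
    rw [h (m + 1), Finset.sum_range_succ, Finset.sum_range_succ] at h1
    have h3 : ∑ j ∈ Finset.range m, ldc a (j + 1) * a (m + 1 - 1 - j) =
        ∑ j ∈ Finset.range m, g (j + 1) * a (m + 1 - 1 - j) := by
      refine Finset.sum_congr rfl fun j hj => ?_
      rw [ih (j + 1) (by have := Finset.mem_range.1 hj; omega) (Nat.succ_ne_zero j)]
    rw [h3] at h1
    have h4 := add_left_cancel h1
    have h5 : m + 1 - 1 - m = 0 := by omega
    rw [h5, h0, mul_one, mul_one] at h4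
    exact h4.symm

theorem Dd_coe_ldc {a : ℕ → ℂ} (h0 : a 0 = 1) : Dd (PowerSeries.mk a) = GS (ldc a) * PowerSeries.mk a :=
  Dd_of_rec _ _ (ldc_rec a h0)

theorem GS_add (g h : ℕ → ℂ) : GS (fun k => g k + h k) = GS g + GS h := by
  ext n
  simp only [GS, PowerSeries.coeff_mk, map_add]
  split_ifs <;> simp

/-- the power sums of a product -/
theorem rec_mul {a b : ℕ → ℂ} (ha : a 0 = 1) (hb : b 0 = 1) (c : ℕ → ℂ)
    (hc : PowerSeries.mk c = PowerSeries.mk a * PowerSeries.mk b) (k : ℕ) :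
    (k : ℂ) * c k = ∑ j ∈ Finset.range k, (ldc a (j + 1) + ldc b (j + 1)) * c (k - 1 - j) := by
  have h : Dd (PowerSeries.mk c) = GS (fun k => ldc a k + ldc b k) * PowerSeries.mk c := by
    rw [hc, Dd_mul, Dd_coe_ldc ha, Dd_coe_ldc hb, GS_add]
    ring
  have h1 := rec_of_Dd h k
  simpa only [PowerSeries.coeff_mk] using h1

/-- the power sums of `∏ (1 - α u)` -/
theorem Dd_prod (s : Multiset ℂ) :
    Dd ((s.map fun α => (1 - PowerSeries.C α * PowerSeries.X : PowerSeries ℂ)).prod) =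
      GS (fun k => -(s.map fun α => α ^ k).sum) *
        (s.map fun α => (1 - PowerSeries.C α * PowerSeries.X : PowerSeries ℂ)).prod := by
  induction s using Multiset.induction_on with
  | empty =>
    simp only [Multiset.map_zero, Multiset.prod_zero, Multiset.sum_zero, neg_zero]
    ext n
    rw [coeff_Dd, mul_one, GS, PowerSeries.coeff_mk, PowerSeries.coeff_one]
    split_ifs with h
    · rw [h]; simp
    · simp
  | cons α s ih =>
    have e1 : Dd (1 - PowerSeries.C α * PowerSeries.X : PowerSeries ℂ) =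
        GS (fun k => -α ^ k) * (1 - PowerSeries.C α * PowerSeries.X) := by
      ext n
      rw [coeff_Dd, mul_sub, mul_one, map_sub, map_sub, ← mul_assoc]
      rw [mul_comm (GS fun k => -α ^ k) (PowerSeries.C α), mul_assoc, PowerSeries.coeff_C_mul, PowerSeries.coeff_C_mul]
      rcases n with _ | n
      · simp [GS]
      · rw [PowerSeries.coeff_succ_mul_X]
        simp only [GS, PowerSeries.coeff_mk, PowerSeries.coeff_one, PowerSeries.coeff_X, Nat.succ_ne_zero, if_false]
        rcases n with _ | n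
        · simp
        · simp [pow_succ]
          ring
    have e2 : GS (fun k => -((α ::ₘ s).map fun α => α ^ k).sum) = GS (fun k => -α ^ k) +
        GS (fun k => -(s.map fun α => α ^ k).sum) := by
      rw [← GS_add]
      congr 1
      funext k
      rw [Multiset.map_cons, Multiset.sum_cons]
      ring
    rw [Multiset.map_cons, Multiset.prod_cons, Dd_mul, e1, ih, e2]
    ring

theorem prod_inv_aux (s : Multiset ℂ) (h : ∀ ρ ∈ s, ρ ≠ 0) :
    (s.map fun ρ => (1 - C ρ⁻¹ * X : ℂ[X])).prod =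
      C (s.map fun ρ => -ρ⁻¹).prod * (s.map fun ρ => (X - C ρ : ℂ[X])).prod := by
  induction s using Multiset.induction_on with
  | empty => simp
  | cons ρ s ih =>
    rw [Multiset.map_cons, Multiset.map_cons, Multiset.map_cons, Multiset.prod_cons, Multiset.prod_cons,
      Multiset.prod_cons, ih fun x hx => h x (Multiset.mem_cons_of_mem hx), C_mul]
    have h1 : (1 - C ρ⁻¹ * X : ℂ[X]) = C (-ρ⁻¹) * (X - C ρ) := by
      rw [mul_sub, ← C_mul, neg_mul, inv_mul_cancel₀ (h ρ (Multiset.mem_cons_self ρ s)), C_neg, C_neg, C_1]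
      ring
    rw [h1]
    ring

theorem eq_prod_roots_inv {Z : ℂ[X]} (h0 : Z.coeff 0 = 1) :
    Z = (Z.roots.map fun ρ => (1 - C ρ⁻¹ * X : ℂ[X])).prod := by
  have hs : Z.Splits := IsAlgClosed.splits Z
  have h := hs.eq_prod_roots
  have hne : ∀ ρ ∈ Z.roots, ρ ≠ 0 := by
    intro ρ hρ h1
    have h2 := (mem_roots'.1 hρ).2
    rw [h1, IsRoot.def, ← coeff_zero_eq_eval_zero, h0] at h2
    exact one_ne_zero h2
  have e1 := prod_inv_aux Z.roots hne
  have e2 : (Z.roots.map fun ρ => (1 - C ρ⁻¹ * X : ℂ[X])).prod.coeff 0 = 1 := by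
    rw [coeff_zero_eq_eval_zero, eval_multiset_prod, Multiset.map_map]
    simp
  have e3 : C Z.leadingCoeff * (Z.roots.map fun ρ => (X - C ρ : ℂ[X])).prod = Z := h.symm
  have e4 : Z.leadingCoeff * (Z.roots.map fun ρ => (X - C ρ : ℂ[X])).prod.coeff 0 = 1 := by
    rw [← coeff_C_mul, e3, h0]
  rw [e1, coeff_C_mul] at e2
  have e5 : (Z.roots.map fun ρ => (X - C ρ : ℂ[X])).prod.coeff 0 ≠ 0 := fun h => by
    rw [h, mul_zero] at e4
    exact zero_ne_one e4
  have e6 : Z.leadingCoeff = (Z.roots.map fun ρ => -ρ⁻¹).prod := mul_right_cancel₀ e5 (e4.trans e2.symm)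
  rw [e1, ← e6, e3]

/-- the power sums of a polynomial with constant term `1`, without zeros in `‖u‖ < R⁻¹` -/
theorem ldc_bound {Z : ℂ[X]} (h0 : Z.coeff 0 = 1) {R : ℝ} (hR : 0 < R)
    (hz : ∀ u : ℂ, ‖u‖ < R⁻¹ → Z.eval u ≠ 0) (k : ℕ) : ‖ldc Z.coeff k‖ ≤ Z.natDegree * R ^ k := by
  rcases Nat.eq_zero_or_pos k with rfl | hk
  · rw [ldc, norm_zero]
    positivity
  have e0 : ((Z.roots.map fun ρ => ρ⁻¹).map fun α => (1 - PowerSeries.C α * PowerSeries.X : PowerSeries ℂ)).prod =
      PowerSeries.mk Z.coeff := by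
    have h1 : PowerSeries.mk Z.coeff = (Z : PowerSeries ℂ) := by
      ext n
      rw [PowerSeries.coeff_mk, Polynomial.coeff_coe]
    rw [h1, Multiset.map_map]
    conv_rhs => rw [eq_prod_roots_inv h0]
    rw [← Polynomial.coeToPowerSeries.ringHom_apply, map_multiset_prod, Multiset.map_map]
    congr 1
    refine Multiset.map_congr rfl fun ρ _ => ?_
    simp [Polynomial.coeToPowerSeries.ringHom_apply]
  have h1 := Dd_prod (Z.roots.map fun ρ => ρ⁻¹)
  rw [e0] at h1
  have h2 : ∀ k : ℕ, (k : ℂ) * Z.coeff k = ∑ j ∈ Finset.range k,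
      (-((Z.roots.map fun ρ => ρ⁻¹).map fun α => α ^ (j + 1)).sum) * Z.coeff (k - 1 - j) := by
    intro k
    have h3 := rec_of_Dd h1 k
    simpa only [PowerSeries.coeff_mk] using h3
  rw [ldc_unique (g := fun k => -((Z.roots.map fun ρ => ρ⁻¹).map fun α => α ^ k).sum) h0 h2 k (by omega), norm_neg]
  refine (norm_multiset_sum_le _).trans ?_
  rw [Multiset.map_map, Multiset.map_map]
  refine (Multiset.sum_le_card_nsmul _ (R ^ k) ?_).trans ?_
  · intro x hx
    rw [Multiset.mem_map] at hx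
    obtain ⟨ρ, hρ, rfl⟩ := hx
    simp only [Function.comp]
    rw [norm_pow, norm_inv]
    refine pow_le_pow_left₀ (by positivity) ?_ k
    have h3 : R⁻¹ ≤ ‖ρ‖ := by
      by_contra h4
      exact hz ρ (not_le.1 h4) (mem_roots'.1 hρ).2
    rw [inv_le_comm₀ (lt_of_lt_of_le (inv_pos.2 hR) h3) hR]
    exact h3
  · rw [Multiset.card_map, nsmul_eq_mul]
    refine mul_le_mul_of_nonneg_right ?_ (by positivity)
    exact_mod_cast Z.card_roots'

end Pool.Agent.H497.TV
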