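import Pool.Agent.H497.TU.Asm
import Pool.Agent.H497.TV.Solver
import Pool.Agent.H497.TV.Wrap
import Pool.Agent.H497.TV.Limit
import Pool.Agent.H497.TV.Tgt0
import Pool.Agent.H497.TV.Zed
import Pool.Agent.H497.TV.Par
import Pool.Agent.H497.TV.Bound

set_option autoImplicit false

namespace Pool.Agent.H497.TV

open MeasureTheory Pool.Agent.H497.TT Pool.Agent.H497.TU

theorem solvV_exists {𝓟 𝓧 : Type} (S : TSys 𝓟 𝓧) {G : Type} [Group G] [TopologicalSpace G] [IsTopologicalGroup G]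
    [CompactSpace G] [T2Space G]
    (hgen : Dense ((Subgroup.closure {g : G | ∃ x : ℝ → G, Continuous x ∧ (∀ s t, x (s + t) = x s * x t) ∧ x 1 = g} :
      Subgroup G) : Set G))
    (n : ℕ → ℕ) (ρ : (i : ℕ) → G →* Matrix.unitaryGroup (Fin (n i)) ℂ) (hρ : ∀ i, Continuous (ρ i))
    (hirr : ∀ i, Irr (ρ i)) (hnt : ∀ i, ∃ g, ρ i g ≠ 1)
    (hne : ∀ i j, i ≠ j → ¬ Equi (mat (ρ i)) (mat (ρ j)) ∧ ¬ Equi (mat (ρ i)) (cmat (ρ j)))
    (T : Set 𝓟) (C : ℕ) (hT : ∀ k : ℕ, k ≠ 0 → (k : ℝ) * (TPr S T k).card ≤ C * √(S.q : ℝ) ^ k)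
    {σ τ η : ℝ} (hσ : 1 / 2 ≤ σ) (hτ : 1 / 2 ≤ τ) (hστ : 2 * σ - 1 + 9 * η ≤ τ) (hη : 0 < η) (hη2 : σ + 16 * η ≤ 1) {κ : ℕ} (hκ : 1 ≤ κ)
    (hκη : 8 * (S.a : ℝ) ≤ η * κ) (m : ℕ) :
    ∃ K0, ∀ K, K0 ≤ K → SolvV S T (repRD n ρ) σ τ η κ m K := by
  classical
  letI : MeasurableSpace G := borel G
  haveI : BorelSpace G := ⟨rfl⟩
  set μ : Measure G := Measure.haarMeasure ⊤ with hμ
  haveI : IsProbabilityMeasure μ := ⟨by
    have := Measure.haarMeasure_self (K₀ := (⊤ : TopologicalSpace.PositiveCompacts G))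
    simpa using this⟩
  let z : {p : Fin m × Bool // p.2 = true → ¬ (repRD n ρ).sd p.1} → ℂ := fun α => if α.1.2 then -Complex.I else 1
  have hz : ∀ (α : {p : Fin m × Bool // p.2 = true → ¬ (repRD n ρ).sd p.1}) (w : ℂ),
      (z α * w).re = if α.1.2 then w.im else w.re := by
    intro α w
    by_cases h : α.1.2 = true
    · simp [z, h]
    · simp [z, h]
  have hcont : ∀ i, Continuous fun g => (mat (ρ i) g).trace := fun i =>
    (continuous_subtype_val.comp (hρ i)).matrix_trace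
  have hint : ∀ i, Integrable (fun g => (mat (ρ i) g).trace) μ := fun i =>
    (hcont i).integrable_of_hasCompactSupport (HasCompactSupport.of_compactSpace _)
  obtain ⟨s, ⟨Fm⟩⟩ := fam_exists μ hgen (ι := {p : Fin m × Bool // p.2 = true → ¬ (repRD n ρ).sd p.1})
    (fun α => n α.1.1) (fun α => ρ α.1.1) (fun α => hρ _) z (fun α => by
      have h1 := mean_zero μ (ρ α.1.1) (hρ _) (hirr _) (hnt _)
      have h2 : ∫ g, z α * (mat (ρ α.1.1) g).trace ∂μ = 0 := by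
        rw [integral_const_mul, h1, mul_zero]
      have h3 := integral_re ((hint α.1.1).const_mul (z α))
      have h4 : ∫ g, (z α * (mat (ρ α.1.1) g).trace).re ∂μ = 0 := by
        have : ∫ g, RCLike.re (z α * (mat (ρ α.1.1) g).trace) ∂μ = 0 := by
          rw [h3, h2]; simp
        exact this
      exact h4) (fun v hv => by
      refine indep μ (fun i : Fin m => n i) (fun i => ρ i) (fun i => hρ _) (fun i => hirr _) (fun i => hnt _)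
        (fun i j hij => hne _ _ (fun h => hij (Fin.ext h))) v (fun g => ?_)
      have h := hv g
      simp only [hz] at h
      exact h)
  obtain ⟨K0, hK0⟩ := solverV (remove S T C hT) μ Fm σ τ η hσ hτ hστ hη hη2 κ hκ hκη
  refine ⟨K0, fun K hK => solv_of_realV S (repRD n ρ) T σ τ η κ hκ m K (fun b hb1 hb2 => ?_)⟩
  have hX := remove_X S T C hT hκ K
  obtain ⟨g1, hg1, hg2⟩ := hK0 K hK b (fun α χ hχ => hb1 α χ (hX ▸ hχ)) (fun α χ hχ => hb2 α χ (hX ▸ hχ))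
  haveI : Nonempty G := ⟨1⟩
  obtain ⟨g, hg⟩ := remove_ext S T C hT g1
  have e : ∀ (α : {p : Fin m × Bool // p.2 = true → ¬ (repRD n ρ).sd p.1}) (P : 𝓟),
      (z α * (ρ α.1.1 (g P) : Matrix (Fin (n α.1.1)) (Fin (n α.1.1)) ℂ).trace).re =
      if α.1.2 then ((repRD n ρ).pw α.1.1 (g P) 1).im else ((repRD n ρ).pw α.1.1 (g P) 1).re := by
    intro α P
    rw [hz]
    simp [repRD, mat]
  have e2 : ∀ (α : {p : Fin m × Bool // p.2 = true → ¬ (repRD n ρ).sd p.1}) (χ : 𝓧),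
      ∑ P ∈ FPr S T K, ((if α.1.2 then ((repRD n ρ).pw α.1.1 (g P) 1).im else
        ((repRD n ρ).pw α.1.1 (g P) 1).re : ℝ) : ℂ) * S.lam χ P 1 =
      ∑ P ∈ (remove S T C hT).Pr K,
        (((z α * (ρ α.1.1 (g1 P) : Matrix (Fin (n α.1.1)) (Fin (n α.1.1)) ℂ).trace).re : ℝ) : ℂ) *
          (remove S T C hT).lam χ P 1 := by
    intro α χ
    rw [← remove_sum S T C hT]
    refine Finset.sum_congr rfl fun P _ => ?_
    rw [← e, hg P]
    rfl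
  refine ⟨g, fun α χ hχ => ?_, fun α χ hχ => ?_⟩
  · rw [← hg1 α χ (hX.symm ▸ hχ), e2]
  · rw [e2]
    exact hg2 α χ (hX.symm ▸ hχ)


open Classical in
theorem mainV {δ : ℝ} (hδ : 0 < δ) (hδ1 : δ ≤ 1 / 8) (Bd : ℕ) :
    ∃ ν : ℕ, ∀ {𝓟 𝓧 : Type} (S : TSys 𝓟 𝓧) (G : Type) [Group G] [TopologicalSpace G] [IsTopologicalGroup G]
    [CompactSpace G] [T2Space G],
    Dense ((Subgroup.closure {g : G | ∃ x : ℝ → G, Continuous x ∧ (∀ s t, x (s + t) = x s * x t) ∧ x 1 = g} :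
      Subgroup G) : Set G) →
    ∀ (n : ℕ → ℕ) (ρ : (i : ℕ) → G →* Matrix.unitaryGroup (Fin (n i)) ℂ), (∀ i, Continuous (ρ i)) →
    (∀ i, Irr (ρ i)) → (∀ i, ∃ g, ρ i g ≠ 1) →
    (∀ i j, i ≠ j → ¬ Equi (mat (ρ i)) (mat (ρ j)) ∧ ¬ Equi (mat (ρ i)) (cmat (ρ j))) →
    ∀ (T : Set 𝓟) (C : ℕ), (∀ k : ℕ, k ≠ 0 → (k : ℝ) * (TPr S T k).card ≤ C * √(S.q : ℝ) ^ k) →
    ∃ N0 : ℕ → ℕ, ∀ (N : ℕ → 𝓧 → ℕ) (W v : ℕ → 𝓧 → ℂ) (Z : ℕ → 𝓧 → Polynomial ℂ),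
    (∀ i χ, ν * (S.a + 1) * (S.c χ + 1) + N0 i ≤ N i χ) → (∀ i χ, S.per χ ∣ N i χ ∧ 2 * S.per χ ≤ N i χ) →
    (∀ i χ, ‖W i χ‖ = 1) → (∀ i χ, W i χ * starRingEnd ℂ (v i χ) = v i χ) →
    (∀ i χ, ‖v i χ‖ ≤ (S.q : ℝ) ^ (δ / 5 * N i χ)) →
    (∀ i χ, (Z i χ).coeff 0 = 1 ∧ (Z i χ).natDegree ≤ Bd * (S.c χ + 1) ∧ (∀ k, ¬ S.per χ ∣ k → (Z i χ).coeff k = 0) ∧
      ∀ u : ℂ, ‖u‖ < (S.q : ℝ) ^ (-(1 / 2 + δ / 4)) → (Z i χ).eval u ≠ 0) →
    (∀ i, Equi (mat (ρ i)) (cmat (ρ i)) → ∀ χ, N i (S.bar χ) = N i χ ∧ W i (S.bar χ) = starRingEnd ℂ (W i χ) ∧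
      v i (S.bar χ) = starRingEnd ℂ (v i χ) ∧ Z i (S.bar χ) = (Z i χ).map (starRingEnd ℂ)) →
    ∀ g0 : 𝓟 → G,
    ∃ g : 𝓟 → G, (∀ P ∈ T, g P = g0 P) ∧ ∀ (i : ℕ) (χ : 𝓧),
      ∃ a : ℕ → ℂ, a 0 = 1 ∧ a (N i χ) = W i χ * ((√(S.q : ℝ) ^ N i χ : ℝ) : ℂ) ∧
        (∀ j, N i χ < j → a j = 0) ∧
        (∀ u : ℂ, u ≠ 0 → ∑ j ∈ Finset.range (N i χ + 1), a j * u ^ j =
          W i χ * ((√(S.q : ℝ) : ℝ) * u) ^ N i χ *
            starRingEnd ℂ (∑ j ∈ Finset.range (N i χ + 1), a j * (1 / (S.q * starRingEnd ℂ u)) ^ j)) ∧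
        (∀ u : ℂ, ‖u‖ < (S.q : ℝ) ^ (-(1 / 2 + δ)) → ∑ j ∈ Finset.range (N i χ + 1), a j * u ^ j ≠ 0) ∧
        ∑ j ∈ Finset.range (N i χ + 1), a j * ((1 / √(S.q : ℝ) : ℝ) : ℂ) ^ j = v i χ ∧
        ∀ u : ℂ, ‖u‖ < 1 / S.q → HasProd (fun P : 𝓟 =>
          ∏ j, (1 - (S.par χ P j * u ^ S.deg P) • mat (ρ i) (g P)).det⁻¹)
          ((Z i χ).eval u * ∑ j ∈ Finset.range (N i χ + 1), a j * u ^ j) := by
  obtain ⟨η, hη⟩ : ∃ η : ℝ, η = δ / 5 := ⟨_, rfl⟩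
  have hη0 : 0 < η := by rw [hη]; linarith
  obtain ⟨ν, hν⟩ := paramsV η hη0 Bd
  refine ⟨ν, fun {𝓟 𝓧} S G _ _ _ _ _ hgen n ρ hρ hirr hnt hne T C hTC => ?_⟩
  have hq2 : (2 : ℝ) ≤ (S.q : ℝ) := by exact_mod_cast S.hq
  have hq0 : (0 : ℝ) < (S.q : ℝ) := by linarith
  have hq1 : (1 : ℝ) < (S.q : ℝ) := by linarith
  obtain ⟨κ, hκ, hκη, hpar⟩ := hν S.q S.hq S.a
  haveI : Nonempty G := ⟨1⟩
  obtain ⟨M, hM⟩ := exists_MV (fun m => solvV_exists S hgen n ρ hρ hirr hnt hne T C hTC (σ := 1 / 2) (τ := 1 / 2)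
    le_rfl le_rfl (by linarith) hη0 (by linarith) hκ hκη m)
  have hH0 : ∀ i, 0 ≤ H2 S (repRD n ρ) C M i := fun i => by
    unfold H2
    positivity
  have hH : ∀ i, ∃ kb N0 : ℕ, M i ≤ kb ∧ NumV S.q η κ (ν * (S.a + 1)) Bd (H2 S (repRD n ρ) C M i) kb N0 := fun i =>
    hpar _ _ (hH0 i)
  choose kb N0 hkb hNum using hH
  refine ⟨N0, fun N W v Z hN hNp hW hWv hv hZ hsd g0 => ?_⟩
  have hT : Thin S (1 / 2) T (fun _ => 1) C := by
    refine ⟨fun _ => le_rfl, fun P => ?_, hTC, fun k hk => ?_⟩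
    · exact Real.one_le_rpow hq1.le (by positivity)
    · rw [Finset.sum_const, nsmul_eq_mul, mul_one]
      refine (hTC k hk).trans (le_of_eq ?_)
      rw [sqrt_pow]
  have hpt : Pt (repRD n ρ) T (fun _ => 1) (fun i P e => (repRD n ρ).pw i (g0 P) e) := by
    constructor
    · intro i P e _
      rw [one_pow, mul_one]
      exact (repRD n ρ).bd i (g0 P) e
    · intro i P e _ hs
      exact (repRD n ρ).real i hs (g0 P) e
  -- the power sums of `Z`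
  have hz0 : ∀ i χ k, ‖FF.ldc (Z i χ).coeff k‖ ≤ (Bd : ℝ) * ((S.c χ : ℝ) + 1) * (S.q : ℝ) ^ ((1 / 2 + 2 * η) * k) := by
    intro i χ k
    obtain ⟨h1, h2, -, h4⟩ := hZ i χ
    have h5 := ldc_bound h1 (R := (S.q : ℝ) ^ (1 / 2 + δ / 4)) (Real.rpow_pos_of_pos hq0 _) (fun u hu => h4 u (by
      rw [Real.rpow_neg hq0.le]
      exact hu)) k
    refine h5.trans ?_
    have h6 : ((Z i χ).natDegree : ℝ) ≤ (Bd : ℝ) * ((S.c χ : ℝ) + 1) := by exact_mod_cast h2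
    refine mul_le_mul h6 ?_ (by positivity) (by positivity)
    rw [← Real.rpow_natCast, ← Real.rpow_mul hq0.le]
    refine Real.rpow_le_rpow_of_exponent_le hq1.le ?_
    refine mul_le_mul_of_nonneg_right ?_ (Nat.cast_nonneg k)
    rw [hη]
    linarith
  have hjj : ∀ i χ, S.per χ ∣ jj (S.per χ) (N i χ) ∧ 2 * jj (S.per χ) (N i χ) ≤ N i χ ∧
      N i χ ≤ 3 * jj (S.per χ) (N i χ) := fun i χ => jj_spec (S.per_pos χ) (hNp i χ).1 (hNp i χ).2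
  have htgt : TgtV S (repRD n ρ) (1 / 2) (1 / 2) η κ kb (H2 S (repRD n ρ) C M)
      (niceV S κ kb N W v (fun i χ => FF.ldc (Z i χ).coeff)) := by
    refine niceV_tgt0 (repRD n ρ) hNp (fun i χ k hk => TT.ldc_per _ _ (hZ i χ).2.2.1 k hk) (fun i hi χ => ?_)
      (fun i χ t ht k hk => ?_)
    · obtain ⟨h1, h2, h3, h4⟩ := hsd i hi χ
      refine ⟨h1, h2, h3, fun k => ?_⟩
      rw [h4, ← FF.ldc_conj']
      congr 1
      funext j
      exact Polynomial.coeff_map _ _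
    · exact niceV_bound S.hq hη0 (hH0 i) (hNum i) (hN i χ) (hjj i χ).2.1 (hjj i χ).2.2 (hW i χ)
        (by rw [hη]; exact hv i χ) (hz0 i χ) ht hk
  obtain ⟨g1, hG⟩ := limitV (le_refl (1 / 2 : ℝ)) (le_refl (1 / 2 : ℝ)) hη0 hκ hkb (fun i => (hNum i).kb1) hT
    (fun i => (hNum i).kbH) hpt htgt hM (fun _ => 1)
  obtain ⟨g, hg⟩ : ∃ g : 𝓟 → G, ∀ P, g P = if P ∈ T then g0 P else g1 P := ⟨_, fun _ => rfl⟩
  refine ⟨g, fun P hP => by rw [hg, if_pos hP], fun i χ => ?_⟩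
  -- the eigenvalues
  have hE : ∀ P : 𝓟, ∃ α : Fin (n i) → ℂ, (∀ l, ‖α l‖ ≤ 1) ∧
      (∀ e : ℕ, PW (repRD n ρ) T (fun i P e => (repRD n ρ).pw i (g0 P) e) g1 i P e = ∑ l, α l ^ e) ∧
      ∀ z : ℂ, (1 - z • mat (ρ i) (g P)).det = ∏ l, (1 - α l * z) := by
    intro P
    obtain ⟨α, h1, h2, h3⟩ := unitary_eig (ρ i (g P))
    refine ⟨α, fun l => (h1 l).le, fun e => ?_, h3⟩
    rw [← h2 e]
    unfold PW
    by_cases hP : P ∈ T
    · rw [if_pos hP, hg, if_pos hP]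
      rfl
    · rw [if_neg hP, hg, if_neg hP]
      rfl
  choose α hα1 hα3 hα4 using hE
  obtain ⟨TT, hTT⟩ : ∃ TT, TT = S.TS (PW (repRD n ρ) T (fun i P e => (repRD n ρ).pw i (g0 P) e) g1 i) χ := ⟨_, rfl⟩
  have hprod : ∀ u : ℂ, ‖u‖ < 1 / S.q → HasProd (fun P : 𝓟 =>
          ∏ j, (1 - (S.par χ P j * u ^ S.deg P) • mat (ρ i) (g P)).det⁻¹)
        (Complex.exp (∑' k : ℕ, TT (k + 1) * u ^ (k + 1) / ((k + 1 : ℕ) : ℂ))) := by
    intro u hu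
    have h1 := eulerU S (by norm_num : (0 : ℝ) ≤ 1 / 2) (by norm_num) hT α (fun P _ => hα1 P) (fun P _ => hα1 P) χ u hu
    have e1 : S.TS (fun P e => ∑ l, α P l ^ e) χ = TT := by
      rw [hTT]
      congr 1
      funext P e
      exact (hα3 P e).symm
    rw [e1] at h1
    convert h1 using 2 with P
    refine Finset.prod_congr rfl fun j _ => ?_
    rw [hα4, ← Finset.prod_inv_distrib]
  have hkb1 := (hNum i).kb1
  have heqn : ∀ k, κ * (S.c χ + 1) + kb i ≤ k → TT k = niceV S κ kb N W v (fun i χ => FF.ldc (Z i χ).coeff) i χ TT k := by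
    intro k hk
    rw [hTT]
    exact (hG (k + 1)).eqn i χ k hk (Nat.lt_succ_self k)
  obtain ⟨hN2, -⟩ := (hNum i).core (S.c χ) (N i χ) (hN i χ)
  obtain ⟨-, hj1, hj2⟩ := hjj i χ
  obtain ⟨j0, hj0⟩ : ∃ j0, j0 = jj (S.per χ) (N i χ) := ⟨_, rfl⟩
  rw [← hj0] at hj1 hj2
  have hk1 : 1 ≤ κ * (S.c χ + 1) + kb i := by omega
  have hkj : κ * (S.c χ + 1) + kb i ≤ j0 := by omega
  obtain ⟨b, hb⟩ : ∃ b, b = (Z i χ).coeff := ⟨_, rfl⟩
  have hb0 : b 0 = 1 := by rw [hb]; exact (hZ i χ).1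
  obtain ⟨a, ha⟩ : ∃ a, a = VV S.q (fun j => TT j - FF.ldc b j) (κ * (S.c χ + 1) + kb i) (N i χ) (W i χ) (v i χ) j0 :=
    ⟨_, rfl⟩
  have ha0 : a 0 = 1 := by rw [ha]; exact VV_zero hk1 hkj hj1
  have hasupp : ∀ j, N i χ < j → a j = 0 := fun j hj => by rw [ha]; exact VV_supp hkj hj1 hj
  have hld : ∀ k, k ≠ 0 → TT k = FF.ldc b k + FF.ldc a k := by
    intro k hk
    by_cases hkk : k < κ * (S.c χ + 1) + kb i
    · rw [ha, VV_ldc_low hkj hj1 (Nat.one_le_iff_ne_zero.2 hk) hkk]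
      ring
    · push Not at hkk
      rw [heqn k hkk]
      unfold niceV
      rw [ha, hb, hj0]
  -- the product polynomial
  obtain ⟨L, hL⟩ : ∃ L : Polynomial ℂ, L = ∑ j ∈ Finset.range (N i χ + 1), Polynomial.C (a j) * Polynomial.X ^ j := ⟨_, rfl⟩
  have hLc : ∀ j, L.coeff j = a j := by
    intro j
    rw [hL, Polynomial.finset_sum_coeff]
    simp only [Polynomial.coeff_C_mul, Polynomial.coeff_X_pow, mul_ite, mul_one, mul_zero]
    rw [Finset.sum_ite_eq]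
    simp only [Finset.mem_range]
    split_ifs with h
    · rfl
    · exact (hasupp j (by omega)).symm
  have hLev : ∀ u, L.eval u = ∑ j ∈ Finset.range (N i χ + 1), a j * u ^ j := fun u => by
    rw [hL, Polynomial.eval_finset_sum]
    simp
  have hLd : L.natDegree ≤ N i χ := by
    rw [Polynomial.natDegree_le_iff_coeff_eq_zero]
    intro j hj
    rw [hLc, hasupp j hj]
  have hcmul : PowerSeries.mk (Z i χ * L).coeff = PowerSeries.mk b * PowerSeries.mk a := by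
    have h1 : PowerSeries.mk (Z i χ * L).coeff = ((Z i χ * L : Polynomial ℂ) : PowerSeries ℂ) := by
      ext n
      rw [PowerSeries.coeff_mk, Polynomial.coeff_coe]
    have h2 : PowerSeries.mk b = ((Z i χ : Polynomial ℂ) : PowerSeries ℂ) := by
      ext n
      rw [PowerSeries.coeff_mk, Polynomial.coeff_coe, hb]
    have h3 : PowerSeries.mk a = ((L : Polynomial ℂ) : PowerSeries ℂ) := by
      ext n
      rw [PowerSeries.coeff_mk, Polynomial.coeff_coe, hLc]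
    rw [h1, h2, h3, Polynomial.coe_mul]
  have hrec : ∀ k : ℕ, (k : ℂ) * (Z i χ * L).coeff k =
      ∑ j ∈ Finset.range k, TT (j + 1) * (Z i χ * L).coeff (k - 1 - j) := by
    intro k
    rw [rec_mul hb0 ha0 _ hcmul k]
    exact Finset.sum_congr rfl fun j _ => by rw [hld (j + 1) (Nat.succ_ne_zero j)]
  have hc0 : (Z i χ * L).coeff 0 = 1 := by
    rw [Polynomial.mul_coeff_zero, hLc, ha0, (hZ i χ).1, one_mul]
  have hcsupp : ∀ j, (Z i χ).natDegree + N i χ < j → (Z i χ * L).coeff j = 0 := fun j hj =>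
    Polynomial.coeff_eq_zero_of_natDegree_lt (lt_of_le_of_lt
      (Polynomial.natDegree_mul_le.trans (Nat.add_le_add_left hLd _)) hj)
  -- the bound for the power sums
  set x : ℝ := (S.q : ℝ) ^ (-η) with hx
  have hx0 : 0 < x := Real.rpow_pos_of_pos hq0 _
  have hx1 : x < 1 := Real.rpow_lt_one_of_one_lt_of_neg hq1 (by linarith)
  set y : ℝ := (S.q : ℝ) ^ (1 / 2 + 5 * η) with hy
  have hy0 : 0 < y := Real.rpow_pos_of_pos hq0 _
  obtain ⟨C', hC'⟩ := bdd_auxT (fun k => ‖TT k‖ / y ^ k) (fun k => by positivity) x hx0 hx1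
    (κ * (S.c χ + 1) + kb i) (fun k hk => by
    rw [div_le_iff₀ (by positivity)]
    have h1 := htgt.bound i χ TT (fun j hj1 hj2 => by
      rw [hTT]
      exact TSU_est le_rfl hη0 hT hpt (hG (j + 1)) i χ (by omega) (Nat.lt_succ_self j) hj2) k hk
    rw [← heqn k hk] at h1
    refine h1.trans (le_of_eq ?_)
    rw [mul_assoc, ← mul_pow]
    congr 1
    rw [hx, hy, ← Real.rpow_add hq0, ← Real.rpow_natCast, ← Real.rpow_mul hq0.le]
    congr 1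
    ring)
  have hTb : ∀ k : ℕ, ‖TT (k + 1)‖ ≤ C' * y ^ (k + 1) := fun k => by
    have := hC' (k + 1)
    rwa [div_le_iff₀ (by positivity)] at this
  have hexp : ∀ u : ℂ, ‖u‖ < (S.q : ℝ) ^ (-(1 / 2 + δ)) →
      Complex.exp (∑' k : ℕ, TT (k + 1) * u ^ (k + 1) / ((k + 1 : ℕ) : ℂ)) =
        (Z i χ).eval u * ∑ j ∈ Finset.range (N i χ + 1), a j * u ^ j := fun u hu => by
    have h1 := FF.exp_eq y hy0 C' TT (Z i χ * L).coeff ((Z i χ).natDegree + N i χ) hc0 hcsupp hTb hrec u (by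
      refine lt_of_lt_of_le hu (le_of_eq ?_)
      rw [hy, Real.rpow_neg hq0.le, ← one_div, hη]
      congr 2
      ring)
    rw [h1, ← hLev, ← Polynomial.eval_mul]
    exact (Polynomial.eval_eq_sum_range' (Nat.lt_succ_of_le
      (Polynomial.natDegree_mul_le.trans (Nat.add_le_add_left hLd _))) u).symm
  refine ⟨a, ha0, ?_, hasupp, fun u hu => ?_, fun u hu => ?_, ?_, fun u hu => ?_⟩
  · rw [ha]
    exact VV_top hk1 hkj hj1
  · rw [ha]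
    exact VV_FE S.hq (hW i χ) hkj hj1 u hu
  · intro h0
    have h1 := hexp u hu
    rw [h0, mul_zero] at h1
    exact Complex.exp_ne_zero _ h1
  · rw [ha]
    exact VV_value S.hq (hW i χ) hkj hj1 (hWv i χ)
  · rw [← hexp u (lt_of_lt_of_le hu (by
      rw [one_div, ← Real.rpow_neg_one]
      exact Real.rpow_le_rpow_of_exponent_le hq1.le (by linarith)))]
    exact hprod u hu

end Pool.Agent.H497.TV
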