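import Pool.Agent.H497.FF.C2

set_option autoImplicit false

namespace Pool.Agent.H497.TV

open Polynomial Pool.Agent.H497.FF

/-- as `FF.core`, with additional coefficients `e` -/
theorem coreV (q : ℕ) (hq : 2 ≤ q) (η r r1 B : ℝ) (hη : 0 < η) (hr : r = (q : ℝ) ^ (-(1 / 2 + η))) (hr1 : r < r1)
    (g : ℕ → ℂ) (k0 N : ℕ) (W : ℂ) (hW : ‖W‖ = 1) (hk0 : 1 ≤ k0) (hN : 2 * k0 ≤ N)
    (hB : ∑ j ∈ Finset.Ico 1 k0, ‖g j‖ / j * r1 ^ j ≤ B)
    (e : ℕ → ℂ) (he0 : ∀ j, j < k0 → e j = 0) (ε : ℝ) (he : ∀ K, ∑ j ∈ Finset.range K, ‖e j‖ * r ^ j ≤ ε)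
    (hρ : Real.exp (2 * B) * ((r / r1) ^ k0 + (q : ℝ) ^ (-η * N + 2 * η * k0)) + Real.exp B * ε ≤ 1 / 4)
    (k : ℕ) (hk : k0 ≤ k) :
    ‖ldc (fun j => LL q g k0 N W j + e j) k‖ ≤ k / 2 * (r ^ k)⁻¹ := by
  have hq0 : (0 : ℝ) < q := by
    have : 0 < q := by omega
    exact_mod_cast this
  have hq1 : (1 : ℝ) ≤ q := by
    have : 1 ≤ q := by omega
    exact_mod_cast this
  have hr0 : 0 < r := by rw [hr]; exact Real.rpow_pos_of_pos hq0 _
  have hr10 : 0 < r1 := hr0.trans hr1
  set g' : ℕ → ℂ := fun j => if j < k0 then g j else 0 with hg'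
  set E : PowerSeries ℂ := PowerSeries.mk (expc g') with hEdef
  set F : PowerSeries ℂ := PowerSeries.mk (expc (fun j => -g' j)) with hFdef
  set S : PowerSeries ℂ := PowerSeries.mk (fun j => LL q g k0 N W j + e j) with hSdef
  set c : ℝ := (q : ℝ) ^ (-η * N + 2 * η * k0) with hc
  have hc0 : 0 < c := Real.rpow_pos_of_pos hq0 _
  have hEg : ∀ j, j < k0 → expc g' j = expc g j :=
    c2_expc_congr g g' k0 (fun j _ hj => by simp [hg', hj])
  have hE : Dd E = GS g' * E := Dd_of_rec _ _ (expc_rec g')
  have hF : Dd F = GS (fun j => -g' j) * F := Dd_of_rec _ _ (expc_rec _)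
  rw [GS_neg] at hF
  have hS0 : LL q g k0 N W 0 + e 0 = 1 := by
    unfold LL
    rw [if_pos (by omega), if_neg (by omega), expc_zero, add_zero, he0 0 (by omega), add_zero]
  have hS : Dd S = GS (ldc (fun j => LL q g k0 N W j + e j)) * S := Dd_of_rec _ _ (ldc_rec _ hS0)
  have hE0 : PowerSeries.coeff 0 E = 1 := by rw [hEdef, PowerSeries.coeff_mk, expc_zero]
  have hF0 : PowerSeries.coeff 0 F = 1 := by rw [hFdef, PowerSeries.coeff_mk, expc_zero]
  have hSc0 : PowerSeries.coeff 0 S = 1 := by rw [hSdef, PowerSeries.coeff_mk, hS0]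
  have hFE : F * E = 1 := by
    apply coeff_zero_one_of_Dd
    · rw [Dd_mul, hE, hF]; ring
    · rw [PowerSeries.coeff_mul, Finset.Nat.antidiagonal_zero, Finset.sum_singleton, hE0, hF0,
        one_mul]
  -- the norm bounds
  have nE1 : ∀ K, nr r1 K E ≤ Real.exp B := fun K => by
    refine nr_expc_le g g' k0 (fun j => ?_) r1 B hr10.le hB K
    simp only [hg']; split_ifs <;> simp
  have nE : ∀ K, nr r K E ≤ Real.exp B := fun K => (nr_mono hr0.le hr1.le K E).trans (nE1 K)
  have nF : ∀ K, nr r K F ≤ Real.exp B := fun K => by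
    refine (nr_mono hr0.le hr1.le K F).trans ?_
    refine nr_expc_le g (fun j => -g' j) k0 (fun j => ?_) r1 B hr10.le hB K
    simp only [hg', norm_neg]; split_ifs <;> simp
  set U : PowerSeries ℂ := PowerSeries.mk (fun j => if j < k0 then 0 else - expc g' j) with hU
  set Rf : ℕ → ℂ := fun j => (if j ≤ N ∧ N - j < k0 then
    W * starRingEnd ℂ (expc g (N - j)) * ((√(q : ℝ) ^ N / (q : ℝ) ^ (N - j) : ℝ) : ℂ) else 0)
    with hRf
  set R : PowerSeries ℂ := PowerSeries.mk Rf with hR
  set Z : PowerSeries ℂ := PowerSeries.mk e with hZ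
  have hSE : S - E = U + R + Z := by
    ext j
    rw [map_sub, map_add, map_add, hSdef, hEdef, hU, hR, hZ, PowerSeries.coeff_mk, PowerSeries.coeff_mk,
      PowerSeries.coeff_mk, PowerSeries.coeff_mk, PowerSeries.coeff_mk]
    unfold LL
    by_cases hj : j < k0
    · rw [if_pos hj, if_pos hj, hEg j hj]; simp only [hRf]; ring
    · rw [if_neg hj, if_neg hj]; simp only [hRf]; ring
  have nU : ∀ K, nr r K U ≤ (r / r1) ^ k0 * Real.exp B := by
    intro K
    have hq1' : r / r1 ≤ 1 := (div_le_one hr10).mpr hr1.le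
    have hq0' : 0 ≤ r / r1 := (div_pos hr0 hr10).le
    calc nr r K U ≤ (r / r1) ^ k0 * nr r1 K E := by
          unfold nr
          rw [Finset.mul_sum]
          apply Finset.sum_le_sum
          intro j _
          rw [hU, hEdef, PowerSeries.coeff_mk, PowerSeries.coeff_mk]
          by_cases hj : j < k0
          · rw [if_pos hj, norm_zero, zero_mul]
            positivity
          · rw [if_neg hj, norm_neg]
            have e1 : r ^ j = (r / r1) ^ j * r1 ^ j := by
              rw [div_pow, div_mul_cancel₀]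
              exact pow_ne_zero _ hr10.ne'
            have e2 : (r / r1) ^ j ≤ (r / r1) ^ k0 :=
              pow_le_pow_of_le_one hq0' hq1' (by omega)
            rw [e1]
            calc ‖expc g' j‖ * ((r / r1) ^ j * r1 ^ j)
                = (r / r1) ^ j * (‖expc g' j‖ * r1 ^ j) := by ring
              _ ≤ _ := mul_le_mul_of_nonneg_right e2 (by positivity)
      _ ≤ _ := mul_le_mul_of_nonneg_left (nE1 K) (by positivity)
  have nR : ∀ K, nr r K R ≤ c * Real.exp B := by
    intro K
    set f : ℕ → ℝ := fun i => if i < k0 then ‖expc g' i‖ * r ^ i * c else 0 with hf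
    have hf0 : ∀ i, 0 ≤ f i := by
      intro i
      simp only [hf]
      split_ifs
      · positivity
      · exact le_refl _
    have hterm : ∀ j, ‖Rf j‖ * r ^ j ≤ if j ≤ N then f (N + 1 - 1 - j) else 0 := by
      intro j
      by_cases hj : j ≤ N ∧ N - j < k0
      · have hj2 : N - j < k0 := hj.2
        have e0 : Rf j = W * starRingEnd ℂ (expc g (N - j)) *
            ((√(q : ℝ) ^ N / (q : ℝ) ^ (N - j) : ℝ) : ℂ) := by
          simp only [hRf]; rw [if_pos hj]
        have e1 : f (N + 1 - 1 - j) = ‖expc g (N - j)‖ * r ^ (N - j) * c := by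
          have : N + 1 - 1 - j = N - j := by omega
          simp only [hf]
          rw [this, if_pos hj2, hEg _ hj2]
        rw [if_pos hj.1, e0, e1, norm_mul, norm_mul, hW, one_mul, RCLike.norm_conj,
          Complex.norm_real, Real.norm_of_nonneg (by positivity)]
        have e2 := qr_identity (q : ℝ) hq0 η N (N - j) (by omega)
        have e3 : N - (N - j) = j := by omega
        rw [e3, ← hr] at e2
        have e4 : (q : ℝ) ^ (-η * (N : ℝ) + 2 * η * ((N - j : ℕ) : ℝ)) ≤ c := by
          rw [hc]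
          apply Real.rpow_le_rpow_of_exponent_le hq1
          have : ((N - j : ℕ) : ℝ) ≤ (k0 : ℝ) := by exact_mod_cast hj2.le
          have := mul_le_mul_of_nonneg_left this (by linarith : (0 : ℝ) ≤ 2 * η)
          linarith
        calc ‖expc g (N - j)‖ * (√(q : ℝ) ^ N / (q : ℝ) ^ (N - j)) * r ^ j
            = ‖expc g (N - j)‖ * ((√(q : ℝ) ^ N / (q : ℝ) ^ (N - j)) * r ^ j) := by ring
          _ = ‖expc g (N - j)‖ * (r ^ (N - j) * (q : ℝ) ^ (-η * (N : ℝ) + 2 * η * ((N - j : ℕ) : ℝ))) := by
              rw [e2]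
          _ = ‖expc g (N - j)‖ * r ^ (N - j) * (q : ℝ) ^ (-η * (N : ℝ) + 2 * η * ((N - j : ℕ) : ℝ)) := by
              ring
          _ ≤ _ := mul_le_mul_of_nonneg_left e4 (by positivity)
      · have e0 : Rf j = 0 := by
          simp only [hRf]; rw [if_neg hj]
        rw [e0, norm_zero, zero_mul]
        split_ifs
        · exact hf0 _
        · exact le_refl _
    calc nr r K R = ∑ j ∈ Finset.range K, ‖Rf j‖ * r ^ j := by
          unfold nr
          apply Finset.sum_congr rfl
          intro j _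
          rw [hR, PowerSeries.coeff_mk]
      _ ≤ ∑ j ∈ Finset.range K, (if j ≤ N then f (N + 1 - 1 - j) else 0) :=
          Finset.sum_le_sum (fun j _ => hterm j)
      _ = ∑ j ∈ (Finset.range K).filter (fun j => j ≤ N), f (N + 1 - 1 - j) := by
          rw [Finset.sum_filter]
      _ ≤ ∑ j ∈ Finset.range (N + 1), f (N + 1 - 1 - j) := by
          apply Finset.sum_le_sum_of_subset_of_nonneg
          · intro j hj
            simp only [Finset.mem_filter, Finset.mem_range] at hj ⊢
            omega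
          · exact fun j _ _ => hf0 _
      _ = ∑ j ∈ Finset.range (N + 1), f j := Finset.sum_range_reflect f (N + 1)
      _ ≤ c * nr r (N + 1) E := by
          unfold nr
          rw [Finset.mul_sum]
          apply Finset.sum_le_sum
          intro i _
          rw [hEdef, PowerSeries.coeff_mk]
          simp only [hf]
          split_ifs
          · apply le_of_eq; ring
          · positivity
      _ ≤ _ := mul_le_mul_of_nonneg_left (nE _) hc0.le
  have nZ : ∀ K, nr r K Z ≤ ε := by
    intro K
    refine le_trans (le_of_eq ?_) (he K)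
    unfold nr
    refine Finset.sum_congr rfl fun j _ => ?_
    rw [hZ, PowerSeries.coeff_mk]
  -- `Y = 1 + z`
  set z : PowerSeries ℂ := F * (S - E) with hz
  have hY : F * S = 1 + z := by
    rw [hz, mul_sub, hFE]; ring
  have nz : ∀ K, nr r K z ≤ 1 / 4 := by
    intro K
    calc nr r K z ≤ nr r K F * nr r K (S - E) := nr_mul hr0.le K F (S - E)
      _ ≤ Real.exp B * ((r / r1) ^ k0 * Real.exp B + c * Real.exp B + ε) := by
          apply mul_le_mul (nF K) _ (nr_nonneg hr0.le K _) (Real.exp_pos B).le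
          rw [hSE]
          exact (nr_add r hr0.le K (U + R) Z).trans (add_le_add ((nr_add r hr0.le K U R).trans
            (add_le_add (nU K) (nR K))) (nZ K))
      _ = Real.exp (2 * B) * ((r / r1) ^ k0 + c) + Real.exp B * ε := by
          rw [two_mul, Real.exp_add]; ring
      _ ≤ 1 / 4 := hρ
  set y : PowerSeries ℂ := (1 + z)⁻¹ with hy
  have hcc : PowerSeries.constantCoeff (1 + z) ≠ 0 := by
    rw [← PowerSeries.coeff_zero_eq_constantCoeff_apply, ← hY, PowerSeries.coeff_mul,
      Finset.Nat.antidiagonal_zero, Finset.sum_singleton, hF0, hSc0]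
    norm_num
  have hYy : (1 + z) * y = 1 := PowerSeries.mul_inv_cancel _ hcc
  have ny : ∀ K, nr r K y ≤ 2 := by
    intro K
    have ey : y = 1 + (-z) * y := by
      have : y + z * y = 1 := by rw [← hYy]; ring
      linear_combination this
    have h1 : nr r K y ≤ nr r K 1 + nr r K (-z) * nr r K y := by
      calc nr r K y = nr r K (1 + (-z) * y) := by rw [← ey]
        _ ≤ nr r K 1 + nr r K ((-z) * y) := nr_add r hr0.le K _ _
        _ ≤ _ := by
            have := nr_mul hr0.le K (-z) y
            linarith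
    have h2 : nr r K 1 ≤ 1 := by
      unfold nr
      cases K with
      | zero => simp
      | succ K =>
        rw [Finset.sum_range_succ']
        have : ∑ k ∈ Finset.range K, ‖PowerSeries.coeff (k + 1) (1 : PowerSeries ℂ)‖ * r ^ (k + 1) = 0 := by
          apply Finset.sum_eq_zero
          intro k _
          rw [PowerSeries.coeff_one, if_neg (Nat.succ_ne_zero k)]
          simp
        rw [this]
        simp
    have h3 : nr r K (-z) = nr r K z := by
      unfold nr
      apply Finset.sum_congr rfl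
      intro k _
      rw [map_neg, norm_neg]
    have h4 := nz K
    have h5 := nr_nonneg hr0.le K y
    rw [h3] at h1
    nlinarith
  -- the logarithmic derivative
  have hD1 : Dd (1 : PowerSeries ℂ) = 0 := by
    ext n
    rw [coeff_Dd, map_zero, PowerSeries.coeff_one]
    split_ifs with h
    · subst h; simp
    · simp
  have hDadd : ∀ f g : PowerSeries ℂ, Dd (f + g) = Dd f + Dd g := by
    intro f g
    ext n
    rw [map_add, coeff_Dd, coeff_Dd, coeff_Dd, map_add]
    ring
  have hDY : (GS (ldc (fun j => LL q g k0 N W j + e j)) - GS g') * (1 + z) = Dd z := by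
    have h1 : Dd (1 + z) = Dd z := by rw [hDadd, hD1, zero_add]
    rw [← h1, ← hY, Dd_mul, hF, hS]
    ring
  have hfin : GS (ldc (fun j => LL q g k0 N W j + e j)) - GS g' = Dd z * y := by
    rw [← hDY, mul_assoc, hYy, mul_one]
  have hk1 : k ≠ 0 := by omega
  have hcoef : ldc (fun j => LL q g k0 N W j + e j) k = PowerSeries.coeff k (Dd z * y) := by
    rw [← hfin, map_sub]
    unfold GS
    rw [PowerSeries.coeff_mk, PowerSeries.coeff_mk, if_neg hk1, if_neg hk1]
    have : g' k = 0 := by
      simp only [hg']; rw [if_neg (by omega)]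
    rw [this, sub_zero]
  have hmain : ‖ldc (fun j => LL q g k0 N W j + e j) k‖ * r ^ k ≤ k / 2 := by
    rw [hcoef]
    calc ‖PowerSeries.coeff k (Dd z * y)‖ * r ^ k ≤ nr r (k + 1) (Dd z * y) :=
          coeff_le_nr hr0.le k _
      _ ≤ nr r (k + 1) (Dd z) * nr r (k + 1) y := nr_mul hr0.le _ _ _
      _ ≤ (k * nr r (k + 1) z) * 2 := by
          apply mul_le_mul (nr_Dd hr0.le k z) (ny _) (nr_nonneg hr0.le _ _)
          exact mul_nonneg (Nat.cast_nonneg k) (nr_nonneg hr0.le _ _)
      _ ≤ (k * (1 / 4)) * 2 := by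
          apply mul_le_mul_of_nonneg_right _ (by norm_num)
          exact mul_le_mul_of_nonneg_left (nz _) (Nat.cast_nonneg k)
      _ = k / 2 := by ring
  rw [← div_eq_mul_inv, le_div_iff₀ (pow_pos hr0 k)]
  exact hmain





end Pool.Agent.H497.TV
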