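import Pool.Agent.H497.FF.C2b
import Pool.Agent.H497.TT.Per
import Pool.Agent.H497.TV.Core
import Pool.Agent.H497.TV.Defs

set_option autoImplicit false

namespace Pool.Agent.H497.TV

theorem FF_LL_zero (q : ℕ) (g : ℕ → ℂ) (k0 N : ℕ) (W : ℂ) (hk0 : 1 ≤ k0) (hN : 2 * k0 ≤ N) :
    FF.LL q g k0 N W 0 = 1 := FF.LL_zero q g k0 N W hk0 hN

theorem FF_LL_supp (q : ℕ) (g : ℕ → ℂ) (k0 N : ℕ) (W : ℂ) (hN : 2 * k0 ≤ N) (j : ℕ) (hj : N < j) :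
    FF.LL q g k0 N W j = 0 := FF.LL_supp q g k0 N W hN j hj

theorem FF_LL_low (q : ℕ) (g : ℕ → ℂ) (k0 N : ℕ) (W : ℂ) (hN : 2 * k0 ≤ N) (j : ℕ) (hj : j < k0) :
    FF.LL q g k0 N W j = FF.expc g j := FF.LL_low q g k0 N W hN j hj

theorem FF_ldc_low (q : ℕ) (g : ℕ → ℂ) (k0 N : ℕ) (W : ℂ) (hN : 2 * k0 ≤ N) (k : ℕ) (hk1 : 1 ≤ k) (hk : k < k0) :
    FF.ldc (FF.LL q g k0 N W) k = g k := FF.ldc_low q g k0 N W hN k hk1 hk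

theorem FF_LL_congr (q : ℕ) (g g' : ℕ → ℂ) (k0 N : ℕ) (W : ℂ) (h : ∀ j, 1 ≤ j → j < k0 → g j = g' j) :
    FF.LL q g k0 N W = FF.LL q g' k0 N W := FF.LL_congr q g g' k0 N W h

theorem FF_expc_conj (g g' : ℕ → ℂ) (k : ℕ) (h : ∀ j, 1 ≤ j → j ≤ k → g' j = starRingEnd ℂ (g j)) :
    FF.expc g' k = starRingEnd ℂ (FF.expc g k) := FF.expc_conj g g' k h

theorem FF_ldc_conj' (a : ℕ → ℂ) (k : ℕ) :
    FF.ldc (fun j => starRingEnd ℂ (a j)) k = starRingEnd ℂ (FF.ldc a k) := FF.ldc_conj' a k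

theorem FF_LL_sum (q : ℕ) (hq : 2 ≤ q) (g : ℕ → ℂ) (k0 N : ℕ) (W : ℂ) (hN : 2 * k0 ≤ N)
    (u : ℂ) (hu : u ≠ 0) :
    ∑ j ∈ Finset.range (N + 1), FF.LL q g k0 N W j * u ^ j =
      ∑ j ∈ Finset.range k0, FF.expc g j * u ^ j + W * ((√(q : ℝ) : ℝ) * u) ^ N *
        starRingEnd ℂ (∑ j ∈ Finset.range k0, FF.expc g j * (1 / (q * starRingEnd ℂ u)) ^ j) :=
  FF.LL_sum q hq g k0 N W hN u hu

theorem FF_LL_FE (q : ℕ) (hq : 2 ≤ q) (g : ℕ → ℂ) (k0 N : ℕ) (W : ℂ) (hW : ‖W‖ = 1) (hN : 2 * k0 ≤ N)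
    (u : ℂ) (hu : u ≠ 0) :
    ∑ j ∈ Finset.range (N + 1), FF.LL q g k0 N W j * u ^ j =
      W * ((√(q : ℝ) : ℝ) * u) ^ N *
        starRingEnd ℂ (∑ j ∈ Finset.range (N + 1), FF.LL q g k0 N W j * (1 / (q * starRingEnd ℂ u)) ^ j) :=
  FF.LL_FE q hq g k0 N W hW hN u hu

theorem FF_expc_bound (g : ℕ → ℂ) (k0 : ℕ) (x B : ℝ) (hx : 0 ≤ x)
    (hB : ∑ j ∈ Finset.Ico 1 k0, ‖g j‖ / j * x ^ j ≤ B) :
    ∑ j ∈ Finset.range k0, ‖FF.expc g j‖ * x ^ j ≤ Real.exp B := by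
  have h := FF.nr_expc_le g (fun j => if j < k0 then g j else 0) k0 (fun j => by split_ifs <;> simp) x B hx hB k0
  refine le_trans (le_of_eq ?_) h
  unfold FF.nr
  refine Finset.sum_congr rfl fun j hj => ?_
  rw [PowerSeries.coeff_mk, FF.c2_expc_congr g (fun j => if j < k0 then g j else 0) k0
    (fun j _ hj => by simp [hj]) j (Finset.mem_range.1 hj)]

theorem TT_LL_per' (q : ℕ) (g : ℕ → ℂ) (k0 N : ℕ) (W : ℂ) (p : ℕ) (hg : ∀ j : ℕ, ¬ p ∣ j → g j = 0)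
    (hN : p ∣ N) (j : ℕ) (hj : ¬ p ∣ j) : FF.LL q g k0 N W j = 0 := TT.LL_per' q g k0 N W p hg hN j hj

theorem TT_ldc_per (a : ℕ → ℂ) (p : ℕ) (ha : ∀ j : ℕ, ¬ p ∣ j → a j = 0) :
    ∀ k : ℕ, ¬ p ∣ k → FF.ldc a k = 0 := TT.ldc_per a p ha

theorem FF_qr_identity (q : ℝ) (hq : 0 < q) (η : ℝ) (N i : ℕ) (hi : i ≤ N) :
    √q ^ N / q ^ i * (q ^ (-(1 / 2 + η)) : ℝ) ^ (N - i) =
      (q ^ (-(1 / 2 + η)) : ℝ) ^ i * q ^ (-η * N + 2 * η * i) := FF.qr_identity q hq η N i hi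

end Pool.Agent.H497.TV
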