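import Pool.Agent.H497.TU.Bounds
import Pool.Agent.H497.TV.Defs
import Pool.Agent.H497.TT.Per

set_option autoImplicit false



namespace Pool.Agent.H497.TV

open MeasureTheory Pool.Agent.H497.TT Pool.Agent.H497.TU


variable {𝓟 𝓧 G : Type}


/- to be proved -/

/-- Adapt `step` in Pool/Agent/H497/TT/Step.lean (origin/main). If `K = 0` take `g' = g` (`Pr 0 = ∅` by `deg_pos`; `eqn` at
`k = 0` is void as `1 ≤ kb i`). Otherwise let `m` be as in `hM` and call `(i, χ)` active if `κ (c χ + 1) + kb i ≤ K`; then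
`M i ≤ kb i ≤ K`, so `i < m`. Let `b i χ = (tgt i χ (TS) K - pp K) / K - ∑_{P ∈ TPr K} PW 1 lam 1` for the active pairs and
`0` otherwise. Bound: `‖b‖ ≤ q^((σ+4η)K) (1 + 2 n R (1+A) + 2 n R C) ≤ (1 + H2) q^((σ+4η)K) ≤ q^((σ+5η)K)`
by `Tgt.bound` (with `TSU_est`: `j < κ (c χ + 1) + kb i ≤ K`), `ppU_le`, `TPart_le` and `hkH` (`kb i ≤ K`). For `sd i`:
`b i (bar χ) = conj (b i χ)` by `TS_conj`, `pp_conj`, `Tgt.sd`, `Pt.real`, `D.real`, `bar_c`, `bar_par`.
Let `g1` be the solution from `SolvS`, and `g' P = if deg P = K then g1 P else g P` (`PW` at `P ∈ T` does not depend on `g`).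
`TS ... k` for `k < K` and `pp ... K` and the sums over `TPr` are the same for `g` and `g'`; so is `tgt` for active pairs
(`Tgt.congr`, `κ (c χ + 1) + kb i ≤ K`). `low` at `k = K` (`M i ≤ K` so `i < m`, `(i,χ)` not active): the sum over `FPr` is
`b i χ = 0` if `χ ∈ X κ K`, otherwise it is bounded by the second part of `SolvS`; the sum over `TPr` is at most
`n R C q^(σ K)`. `eqn` at `k = K`: if `per χ ∣ K` then `χ ∈ X κ K` and `TS = K (b + ∑_{TPr}) + pp = tgt`; if `per χ ∤ K` both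
sides are `0` (`TS_per` for all `j`, `Tgt.per`). -/
theorem stepV {S : TSys 𝓟 𝓧} {D : RD G} {σ τ η : ℝ} (hτ : 1 / 2 ≤ τ) (hτσ : τ ≤ σ) (hη : 0 < η) {κ : ℕ} (hκ : 1 ≤ κ)
    {kb M : ℕ → ℕ} (hMkb : ∀ i, M i ≤ kb i) (hkb1 : ∀ i, 1 ≤ kb i)
    {T : Set 𝓟} {h : 𝓟 → ℝ} {C : ℕ} (hT : Thin S τ T h C)
    (hkH : ∀ i, 1 + H2 S D C M i ≤ (S.q : ℝ) ^ (η * kb i))
    {pt : ℕ → 𝓟 → ℕ → ℂ} (hpt : Pt D T h pt) {tgt : ℕ → 𝓧 → (ℕ → ℂ) → ℕ → ℂ}
    (htgt : TgtV S D σ τ η κ kb (H2 S D C M) tgt) {K : ℕ}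
    (hM : ∃ m, (∀ i, M i ≤ K → i < m) ∧ SolvV S T D σ τ η κ m K) {g : 𝓟 → G}
    (hG : GoodU S D τ η κ kb M C tgt (PW D T pt g) K) :
    ∃ g' : 𝓟 → G, (∀ P, S.deg P ≠ K → g' P = g P) ∧ GoodU S D τ η κ kb M C tgt (PW D T pt g') (K + 1) := by
  by_cases hK0 : K = 0
  · subst hK0
    refine ⟨g, fun _ _ => rfl, ⟨?_, ?_⟩⟩
    · intro i χ k h1 h2 h3
      have hk : k = 0 := by omega
      subst hk
      have he : S.Pr 0 = ∅ := by
        apply Finset.eq_empty_of_forall_notMem
        intro P hP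
        have h4 := (S.mem_Pr 0 P).1 hP
        have h5 := S.deg_pos P
        omega
      rw [he, Finset.sum_empty, norm_zero]
      have h6 : 0 ≤ H1 S D C i := by
        unfold H1
        positivity
      positivity
    · intro i χ k h1 h2
      have h3 := hkb1 i
      omega
  have hKR : (K : ℂ) ≠ 0 := by exact_mod_cast hK0
  have hKr : (1 : ℝ) ≤ (K : ℝ) := by exact_mod_cast Nat.one_le_iff_ne_zero.2 hK0
  have hq1 : (1 : ℝ) ≤ (S.q : ℝ) := by
    have := S.hq
    exact_mod_cast (by omega : 1 ≤ S.q)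
  have hq0 : (0 : ℝ) < (S.q : ℝ) := lt_of_lt_of_le zero_lt_one hq1
  have hreal : ∀ i, D.sd i → ∀ P e, starRingEnd ℂ (PW D T pt g i P e) = PW D T pt g i P e := by
    intro i hi P e
    unfold PW
    by_cases hP : P ∈ T
    · rw [if_pos hP]
      exact hpt.real i P e hP hi
    · rw [if_neg hP]
      exact D.real i hi (g P) e
  obtain ⟨m, hm, hsolv⟩ := hM
  set L : ℕ → 𝓧 → ℂ := fun i χ => tgt i χ (S.TS (PW D T pt g i) χ) K with hL
  set TP : ℕ → 𝓧 → ℂ := fun i χ => ∑ P ∈ TPr S T K, PW D T pt g i P 1 * S.lam χ P 1 with hTP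
  set b : ℕ → 𝓧 → ℂ := fun i χ => if κ * (S.c χ + 1) + kb i ≤ K then
    (L i χ - S.pp (PW D T pt g i) χ K) / K - TP i χ else 0 with hb
  have hbd : ∀ i < m, ∀ χ ∈ S.X κ K, ‖b i χ‖ ≤ (S.q : ℝ) ^ ((σ + 5 * η) * K) := by
    intro i _ χ _
    by_cases hact : κ * (S.c χ + 1) + kb i ≤ K
    · have h1 : ‖L i χ‖ ≤ K * (S.q : ℝ) ^ ((σ + 4 * η) * K) := by
        refine htgt.bound i χ _ (fun j hj1 hj2 => ?_) K hact
        exact TSU_est hτ hη hT hpt hG i χ (by omega) (by omega) hj2
      have h2 := ppU_le hτ hT hpt g i χ hK0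
      have h2' := TPart_le hT hpt g i χ hK0
      have h3 : ‖b i χ‖ ≤ (‖L i χ‖ + ‖S.pp (PW D T pt g i) χ K‖) / K + ‖TP i χ‖ := by
        simp only [hb]
        rw [if_pos hact]
        refine (norm_sub_le _ _).trans (add_le_add ?_ le_rfl)
        rw [norm_div, Complex.norm_natCast]
        exact div_le_div_of_nonneg_right (norm_sub_le _ _) (by positivity)
      set x : ℝ := (S.q : ℝ) ^ ((σ + 4 * η) * K) with hx
      have hx0 : 0 < x := Real.rpow_pos_of_pos hq0 _
      have hηK : (0 : ℝ) ≤ 4 * η * K := by positivity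
      have h4 : (S.q : ℝ) ^ ((1 / 2 : ℝ) * K) ≤ x := by
        apply Real.rpow_le_rpow_of_exponent_le hq1
        have : (1 / 2 : ℝ) * K ≤ σ * K := mul_le_mul_of_nonneg_right (hτ.trans hτσ) (by positivity)
        linarith
      have h4' : (S.q : ℝ) ^ (τ * K) ≤ x := by
        apply Real.rpow_le_rpow_of_exponent_le hq1
        have : τ * K ≤ σ * K := mul_le_mul_of_nonneg_right hτσ (by positivity)
        linarith
      obtain ⟨nr, hnr⟩ : ∃ nr : ℝ, nr = D.n i * S.R := ⟨_, rfl⟩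
      have hnr0 : 0 ≤ nr := by
        rw [hnr]
        positivity
      have hA0 : (0 : ℝ) ≤ 1 + S.A := by positivity
      have hC0 : (0 : ℝ) ≤ C := by positivity
      have h5 : (‖L i χ‖ + ‖S.pp (PW D T pt g i) χ K‖) / K ≤
          (1 + 2 * nr * (1 + S.A) + nr * C) * x := by
        rw [div_le_iff₀ (by linarith)]
        have h6 : 2 * D.n i * S.R * (1 + S.A) * (S.q : ℝ) ^ ((1 / 2 : ℝ) * K) ≤
            2 * nr * (1 + S.A) * x := by
          rw [hnr]
          calc 2 * D.n i * S.R * (1 + S.A) * (S.q : ℝ) ^ ((1 / 2 : ℝ) * K) ≤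
                2 * D.n i * S.R * (1 + S.A) * x := mul_le_mul_of_nonneg_left h4 (by positivity)
            _ = 2 * (D.n i * S.R) * (1 + S.A) * x := by ring
        have h7 : 2 * nr * (1 + S.A) * x ≤ 2 * nr * (1 + S.A) * x * K :=
          le_mul_of_one_le_right (by positivity) hKr
        have h8 : D.n i * S.R * C * (K * (S.q : ℝ) ^ (τ * K)) ≤ nr * C * (K * x) := by
          rw [← hnr]
          refine mul_le_mul_of_nonneg_left ?_ (by positivity)
          exact mul_le_mul_of_nonneg_left h4' (by positivity)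
        nlinarith [h1, h2, h6, h7, h8]
      have h5' : ‖TP i χ‖ ≤ nr * C * x := by
        refine h2'.trans ?_
        rw [← hnr]
        exact mul_le_mul_of_nonneg_left h4' (by positivity)
      have h6 : 1 + 2 * nr * (1 + S.A) + 2 * nr * C ≤ (S.q : ℝ) ^ (η * K) := by
        have h7 := hkH i
        unfold H2 at h7
        have h8 : (1 : ℝ) ≤ (S.q : ℝ) ^ M i := one_le_pow₀ hq1
        have h9 : 4 * nr * (1 + S.A + C) ≤ 4 * nr * (1 + S.A + C) * (S.q : ℝ) ^ M i :=
          le_mul_of_one_le_right (by positivity) h8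
        have h9' : 4 * D.n i * S.R * (1 + S.A + C) * (S.q : ℝ) ^ M i =
            4 * nr * (1 + S.A + C) * (S.q : ℝ) ^ M i := by
          rw [hnr]
          ring
        have h10 : (S.q : ℝ) ^ (η * kb i) ≤ (S.q : ℝ) ^ (η * K) := by
          apply Real.rpow_le_rpow_of_exponent_le hq1
          apply mul_le_mul_of_nonneg_left _ hη.le
          have : kb i ≤ K := le_trans (Nat.le_add_left _ _) hact
          exact_mod_cast this
        have h11 : 0 ≤ nr * (1 + S.A) := by positivity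
        have h12 : 0 ≤ nr * C := by positivity
        rw [h9'] at h7
        nlinarith
      calc ‖b i χ‖ ≤ (1 + 2 * nr * (1 + S.A) + 2 * nr * C) * x := by
            refine h3.trans ((add_le_add h5 h5').trans (le_of_eq ?_))
            ring
        _ ≤ (S.q : ℝ) ^ (η * K) * x := mul_le_mul_of_nonneg_right h6 hx0.le
        _ = (S.q : ℝ) ^ ((σ + 5 * η) * K) := by
          rw [hx, ← Real.rpow_add hq0]
          congr 1
          ring
    · simp only [hb]
      rw [if_neg hact, norm_zero]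
      positivity
  have hbs : ∀ i < m, D.sd i → ∀ χ ∈ S.X κ K, b i (S.bar χ) = starRingEnd ℂ (b i χ) := by
    intro i _ hi χ _
    simp only [hb]
    rw [S.bar_c]
    by_cases hact : κ * (S.c χ + 1) + kb i ≤ K
    · rw [if_pos hact, if_pos hact, map_sub, map_div₀, map_sub, Complex.conj_natCast,
        pp_conj S (PW D T pt g i) (hreal i hi) χ K]
      have h1 : L i (S.bar χ) = starRingEnd ℂ (L i χ) := by
        simp only [hL]
        exact htgt.sd i hi χ _ _ (fun j _ _ => TS_conj S (PW D T pt g i) (hreal i hi) χ j) K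
      have h2 : TP i (S.bar χ) = starRingEnd ℂ (TP i χ) := by
        simp only [hTP]
        rw [map_sum]
        refine Finset.sum_congr rfl fun P _ => ?_
        rw [map_mul, hreal i hi]
        have h3 : S.lam (S.bar χ) P 1 = starRingEnd ℂ (S.lam χ P 1) := S.bar_par χ P 1
        rw [h3]
      rw [h1, h2]
    · rw [if_neg hact, if_neg hact, map_zero]
  obtain ⟨g1, hg1, hg2⟩ := hsolv b hbd hbs
  classical
  obtain ⟨g', hg'⟩ : ∃ g' : 𝓟 → G, g' = fun P => if S.deg P = K then g1 P else g P := ⟨_, rfl⟩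
  have hgne : ∀ P, S.deg P ≠ K → g' P = g P := by
    intro P hP
    rw [hg']
    exact if_neg hP
  have hgeq : ∀ P, S.deg P = K → g' P = g1 P := by
    intro P hP
    rw [hg']
    exact if_pos hP
  have hPWne : ∀ i P, S.deg P ≠ K → PW D T pt g' i P = PW D T pt g i P := by
    intro i P hP
    funext e
    unfold PW
    rw [hgne P hP]
  have hPWT : ∀ i P e, P ∈ T → PW D T pt g' i P e = PW D T pt g i P e := by
    intro i P e hP
    unfold PW
    rw [if_pos hP, if_pos hP]
  have hPWF : ∀ i P e, P ∉ T → S.deg P = K → PW D T pt g' i P e = D.pw i (g1 P) e := by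
    intro i P e hP hd
    unfold PW
    rw [if_neg hP, hgeq P hd]
  refine ⟨g', hgne, ?_⟩
  have hTS : ∀ i χ k, k < K → S.TS (PW D T pt g' i) χ k = S.TS (PW D T pt g i) χ k := by
    intro i χ k hk
    apply TS_congr
    intro P hP
    exact hPWne i P (by omega)
  have hpp : ∀ i χ, S.pp (PW D T pt g' i) χ K = S.pp (PW D T pt g i) χ K := by
    intro i χ
    apply pp_congr
    intro P hP
    exact hPWne i P (by omega)
  have hs1 : ∀ i χ k, k < K → ∑ P ∈ S.Pr k, PW D T pt g' i P 1 * S.lam χ P 1 =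
      ∑ P ∈ S.Pr k, PW D T pt g i P 1 * S.lam χ P 1 := by
    intro i χ k hk
    refine Finset.sum_congr rfl fun P hP => ?_
    have := (S.mem_Pr k P).1 hP
    rw [hPWne i P (by omega)]
  have hs2 : ∀ i χ, ∑ P ∈ S.Pr K, PW D T pt g' i P 1 * S.lam χ P 1 =
      ∑ P ∈ FPr S T K, D.pw i (g1 P) 1 * S.lam χ P 1 + TP i χ := by
    intro i χ
    rw [sum_split S T]
    refine congrArg₂ (· + ·) ?_ ?_
    · refine Finset.sum_congr rfl fun P hP => ?_
      have h1 := Finset.mem_filter.1 hP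
      rw [hPWF i P 1 h1.2 ((S.mem_Pr K P).1 h1.1)]
    · simp only [hTP]
      refine Finset.sum_congr rfl fun P hP => ?_
      have h1 := Finset.mem_filter.1 hP
      rw [hPWT i P 1 h1.2]
  have htg : ∀ i χ k, κ * (S.c χ + 1) + kb i ≤ K → tgt i χ (S.TS (PW D T pt g' i) χ) k =
      tgt i χ (S.TS (PW D T pt g i) χ) k := by
    intro i χ k h
    exact htgt.congr i χ _ _ k fun j _ hj => hTS i χ j (by omega)
  constructor
  · intro i χ k h1 h2 h3
    rcases Nat.lt_succ_iff_lt_or_eq.1 h2 with h4 | rfl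
    · rw [hs1 i χ k h4]
      exact hG.low i χ k h1 h4 h3
    · rw [hs2 i χ]
      have him := hm i h1
      have hT' : ‖TP i χ‖ ≤ D.n i * S.R * C * (S.q : ℝ) ^ ((τ + 2 * η) * k) := by
        refine (TPart_le hT hpt g i χ hK0).trans ?_
        refine mul_le_mul_of_nonneg_left ?_ (by positivity)
        apply Real.rpow_le_rpow_of_exponent_le hq1
        have : (0 : ℝ) ≤ 2 * η * k := by positivity
        linarith
      have hF' : ‖∑ P ∈ FPr S T k, D.pw i (g1 P) 1 * S.lam χ P 1‖ ≤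
          ((S.c χ : ℝ) + 2) * (S.q : ℝ) ^ ((τ + 2 * η) * k) := by
        by_cases hχ : χ ∈ S.X κ k
        · rw [hg1 i him χ hχ]
          simp only [hb]
          rw [if_neg (by omega), norm_zero]
          positivity
        · exact hg2 i him χ hχ
      refine (norm_add_le _ _).trans ((add_le_add hF' hT').trans (le_of_eq ?_))
      unfold H1
      ring
  · intro i χ k h1 h2
    rcases Nat.lt_succ_iff_lt_or_eq.1 h2 with h4 | rfl
    · rw [hTS i χ k h4, htg i χ k (by omega)]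
      exact hG.eqn i χ k h1 h4
    · rw [htg i χ k h1]
      by_cases hp : S.per χ ∣ k
      · have hχ : χ ∈ S.X κ k := (TSys.mem_X hκ).2 ⟨le_trans (Nat.le_add_right _ _) h1, hp⟩
        have him : i < m := hm i ((hMkb i).trans (le_trans (Nat.le_add_left _ _) h1))
        rw [TS_split S _ χ hK0, hs2 i χ, hg1 i him χ hχ, hpp i χ]
        simp only [hb]
        rw [if_pos h1, sub_add_cancel, mul_div_cancel₀ _ hKR, sub_add_cancel]
      · rw [TS_per S _ χ hp]
        exact (htgt.per i χ _ (fun j hj => TS_per S _ χ hj) k hp).symm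


end Pool.Agent.H497.TV
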